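import Mathlib

/-!
Weak Manin near the pullback of `O(1)`: the algebraic part.  If forms `f j` have no common factor
then a nonzero polynomial `R (y)` is a combination of the polynomials `f j (y + t e)`.
-/

set_option autoImplicit false

namespace Pool.Agent.H437.WM

open Finset
open scoped nonZeroDivisors

/-- Gauss: polynomials over a factorial ring without a common factor generate an ideal which
contains a nonzero constant. -/
theorem gauss {A : Type} [CommRing A] [IsDomain A] [UniqueFactorizationMonoid A]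
    {J : Type} [Fintype J] (F : J → Polynomial A)
    (hF : ∀ D : Polynomial A, (∀ j, D ∣ F j) → IsUnit D) :
    ∃ R : A, R ≠ 0 ∧ ∃ a : J → Polynomial A, Polynomial.C R = ∑ j, a j * F j := by
  classical
  have : Nonempty (NormalizedGCDMonoid A) := inferInstance
  let inst : NormalizedGCDMonoid A := Classical.choice this
  let Q := FractionRing A
  let I : Ideal (Polynomial Q) := Ideal.span (Set.range fun j => (F j).map (algebraMap A Q))
  obtain ⟨q, hq⟩ : ∃ q : Polynomial Q, I = Ideal.span {q} := by
    have : I.IsPrincipal := IsPrincipalIdealRing.principal I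
    exact ⟨_, (Ideal.span_singleton_generator I).symm⟩
  have hdvd : ∀ j, q ∣ (F j).map (algebraMap A Q) := by
    intro j
    rw [← Ideal.mem_span_singleton, ← hq]
    exact Ideal.subset_span ⟨j, rfl⟩
  have hq0 : q ≠ 0 := by
    rintro rfl
    have h0 : ∀ j, (0 : Polynomial A) ∣ F j := by
      intro j
      have h1 := hdvd j
      rw [zero_dvd_iff] at h1
      have h2 : F j = 0 := by
        apply Polynomial.map_injective (algebraMap A Q) (IsFractionRing.injective A Q)
        rw [h1, Polynomial.map_zero]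
      rw [h2]
    exact not_isUnit_zero (hF 0 h0)
  have hunit : IsUnit q := by
    apply Polynomial.isUnit_or_eq_zero_of_isUnit_integerNormalization_primPart (R := A) hq0
    apply hF
    intro j
    apply (Polynomial.isPrimitive_primPart _).dvd_of_fraction_map_dvd_fraction_map (K := Q)
    refine dvd_trans ?_ (hdvd j)
    obtain ⟨c, c0, hc⟩ := IsLocalization.integerNormalization_spec A⁰ q
    have hcu : IsUnit (Polynomial.C (algebraMap A Q c)) := by
      rw [Polynomial.isUnit_C, isUnit_iff_ne_zero]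
      intro h
      exact nonZeroDivisors.ne_zero c0
        (IsFractionRing.injective A Q (by rw [h, map_zero]))
    have h1 : Polynomial.C (algebraMap A Q c) * q =
        (IsLocalization.integerNormalization A⁰ q).map (algebraMap A Q) := by
      rw [hc, Algebra.smul_def, Polynomial.algebraMap_apply]
    rw [← hcu.dvd_mul_left (b := q), h1]
    exact Polynomial.map_dvd _ (Polynomial.primPart_dvd _)
  have h1 : (1 : Polynomial Q) ∈ I := by
    rw [hq, Ideal.mem_span_singleton]
    exact hunit.dvd
  obtain ⟨c, hc⟩ := (Ideal.mem_span_range_iff_exists_fun).1 h1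
  have hN : ∀ j, ∃ b : A, b ≠ 0 ∧ ∃ c' : Polynomial A,
      c'.map (algebraMap A Q) = Polynomial.C (algebraMap A Q b) * c j := by
    intro j
    obtain ⟨b, b0, hb⟩ := IsLocalization.integerNormalization_spec A⁰ (c j)
    refine ⟨b, nonZeroDivisors.ne_zero b0, IsLocalization.integerNormalization A⁰ (c j), ?_⟩
    rw [hb, Algebra.smul_def, Polynomial.algebraMap_apply]
  choose b hb0 c' hc' using hN
  refine ⟨∏ j, b j, Finset.prod_ne_zero_iff.2 fun j _ => hb0 j,
    fun j => Polynomial.C (∏ i ∈ univ.erase j, b i) * c' j, ?_⟩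
  apply Polynomial.map_injective (algebraMap A Q) (IsFractionRing.injective A Q)
  rw [Polynomial.map_C, Polynomial.map_sum]
  have h2 : ∀ j, ((Polynomial.C (∏ i ∈ univ.erase j, b i) * c' j) * F j).map (algebraMap A Q) =
      Polynomial.C (algebraMap A Q (∏ j, b j)) * (c j * (F j).map (algebraMap A Q)) := by
    intro j
    rw [Polynomial.map_mul, Polynomial.map_mul, hc', Polynomial.map_C,
      ← Finset.prod_erase_mul univ b (Finset.mem_univ j), map_mul, map_mul]
    ring
  rw [Finset.sum_congr rfl fun j _ => h2 j, ← Finset.mul_sum, hc, mul_one]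

section sub

variable {K : Type} [Field K] {σ : Type}

/-- substitution `y ↦ y + t e` -/
noncomputable def sb (e : σ → K) : MvPolynomial σ K →+* Polynomial (MvPolynomial σ K) :=
  MvPolynomial.eval₂Hom (Polynomial.C.comp MvPolynomial.C)
    fun i => Polynomial.C (MvPolynomial.X i) + Polynomial.X * Polynomial.C (MvPolynomial.C (e i))

/-- the automorphism of the polynomial ring -/
noncomputable def tau (e : σ → K) :
    Polynomial (MvPolynomial σ K) →+* Polynomial (MvPolynomial σ K) :=
  Polynomial.eval₂RingHom (sb e) Polynomial.X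

theorem sb_C (e : σ → K) (a : K) : sb e (MvPolynomial.C a) = Polynomial.C (MvPolynomial.C a) := by
  unfold sb
  rw [MvPolynomial.coe_eval₂Hom, MvPolynomial.eval₂_C]
  rfl

theorem sb_X (e : σ → K) (i : σ) : sb e (MvPolynomial.X i) =
    Polynomial.C (MvPolynomial.X i) + Polynomial.X * Polynomial.C (MvPolynomial.C (e i)) := by
  unfold sb
  rw [MvPolynomial.coe_eval₂Hom, MvPolynomial.eval₂_X]

theorem tau_C (e : σ → K) (f : MvPolynomial σ K) : tau e (Polynomial.C f) = sb e f := by
  unfold tau
  rw [Polynomial.coe_eval₂RingHom, Polynomial.eval₂_C]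

theorem tau_X (e : σ → K) : tau e Polynomial.X = Polynomial.X := by
  unfold tau
  rw [Polynomial.coe_eval₂RingHom, Polynomial.eval₂_X]

theorem tau_tau (e : σ → K) (p : Polynomial (MvPolynomial σ K)) :
    tau (fun i => - e i) (tau e p) = p := by
  have h : (tau (fun i => - e i)).comp (tau e) = RingHom.id _ := by
    apply Polynomial.ringHom_ext'
    · apply MvPolynomial.ringHom_ext
      · intro a
        simp only [RingHom.comp_apply, RingHom.id_apply]
        rw [tau_C, sb_C, tau_C, sb_C]
      · intro i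
        simp only [RingHom.comp_apply, RingHom.id_apply]
        rw [tau_C, sb_X, map_add, map_mul, tau_C, tau_C, tau_X, sb_X, sb_C, map_neg, map_neg]
        ring
    · simp only [RingHom.comp_apply, RingHom.id_apply]
      rw [tau_X, tau_X]
  exact congrArg (fun g : _ →+* _ => g p) h

theorem tau_tau' (e : σ → K) (p : Polynomial (MvPolynomial σ K)) :
    tau e (tau (fun i => - e i) p) = p := by
  have h := tau_tau (fun i => - e i) p
  simpa using h

theorem unit_sb {J : Type} (f : J → MvPolynomial σ K)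
    (hf : ∀ g : MvPolynomial σ K, (∀ j, g ∣ f j) → IsUnit g) (e : σ → K)
    (D : Polynomial (MvPolynomial σ K)) (hD : ∀ j, D ∣ sb e (f j)) : IsUnit D := by
  have h1 : ∀ j, tau (fun i => - e i) D ∣ Polynomial.C (f j) := by
    intro j
    have := map_dvd (tau (fun i => - e i)) (hD j)
    rwa [← tau_C, tau_tau] at this
  have h0 : ∃ j, f j ≠ 0 := by
    by_contra hcon
    push Not at hcon
    refine not_isUnit_zero (hf 0 fun j => ?_)
    rw [hcon j]
  obtain ⟨j0, hj0⟩ := h0
  have h2 : (tau (fun i => - e i) D).natDegree = 0 := by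
    have h3 := Polynomial.natDegree_le_of_dvd (h1 j0) (by
      rw [Ne, Polynomial.C_eq_zero]; exact hj0)
    rw [Polynomial.natDegree_C] at h3
    omega
  obtain ⟨r, hr⟩ : ∃ r, tau (fun i => - e i) D = Polynomial.C r :=
    ⟨_, Polynomial.eq_C_of_natDegree_eq_zero h2⟩
  have h3 : IsUnit r := by
    apply hf
    intro j
    have := h1 j
    rw [hr, Polynomial.C_dvd_iff_dvd_coeff] at this
    have h4 := this 0
    rwa [Polynomial.coeff_C_zero] at h4
  have h4 : IsUnit (tau (fun i => - e i) D) := by
    rw [hr, Polynomial.isUnit_C]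
    exact h3
  have h5 := h4.map (tau e)
  rwa [tau_tau'] at h5

/-- evaluation at `(y, t)` -/
noncomputable def ev (y : σ → K) (t : K) : Polynomial (MvPolynomial σ K) →+* K :=
  Polynomial.eval₂RingHom (MvPolynomial.eval y) t

theorem ev_C (y : σ → K) (t : K) (f : MvPolynomial σ K) :
    ev y t (Polynomial.C f) = MvPolynomial.eval y f := by
  unfold ev
  rw [Polynomial.coe_eval₂RingHom, Polynomial.eval₂_C]

theorem ev_X (y : σ → K) (t : K) : ev y t Polynomial.X = t := by
  unfold ev
  rw [Polynomial.coe_eval₂RingHom, Polynomial.eval₂_X]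

theorem ev_sb (e y : σ → K) (t : K) (f : MvPolynomial σ K) :
    ev y t (sb e f) = MvPolynomial.eval (fun i => y i + t * e i) f := by
  have h : (ev y t).comp (sb e) = MvPolynomial.eval (fun i => y i + t * e i) := by
    apply MvPolynomial.ringHom_ext
    · intro a
      rw [RingHom.comp_apply, sb_C, ev_C, MvPolynomial.eval_C, MvPolynomial.eval_C]
    · intro i
      rw [RingHom.comp_apply, sb_X, map_add, map_mul, ev_C, ev_C, ev_X, MvPolynomial.eval_C,
        MvPolynomial.eval_X, MvPolynomial.eval_X]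
  exact congrArg (fun g : _ →+* _ => g f) h

theorem comb [UniqueFactorizationMonoid (MvPolynomial σ K)] {J : Type} [Fintype J]
    (f : J → MvPolynomial σ K)
    (hf : ∀ g : MvPolynomial σ K, (∀ j, g ∣ f j) → IsUnit g) (e : σ → K) :
    ∃ R : MvPolynomial σ K, R ≠ 0 ∧ ∃ a : J → Polynomial (MvPolynomial σ K), ∀ (y : σ → K) (t : K),
      MvPolynomial.eval y R = ∑ j, ev y t (a j) * MvPolynomial.eval (fun i => y i + t * e i) (f j) := by
  obtain ⟨R, hR, a, ha⟩ := gauss (fun j => sb e (f j)) (fun D hD => unit_sb f hf e D hD)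
  refine ⟨R, hR, a, fun y t => ?_⟩
  have h := congrArg (ev y t) ha
  rw [ev_C, map_sum] at h
  rw [h]
  refine Finset.sum_congr rfl fun j _ => ?_
  rw [map_mul, ev_sb]

end sub

section int

variable {K : Type} [Field K] [NumberField K] {σ : Type}

theorem den (a : K) : ∃ N : K, N ≠ 0 ∧ IsIntegral ℤ N ∧ IsIntegral ℤ (N * a) := by
  obtain ⟨x, y, hy, h⟩ := IsFractionRing.div_surjective (A := NumberField.RingOfIntegers K) a
  have hy0 : (y : K) ≠ 0 := by
    have := nonZeroDivisors.ne_zero hy
    exact NumberField.RingOfIntegers.coe_ne_zero_iff.2 this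
  refine ⟨(y : K), hy0, NumberField.RingOfIntegers.isIntegral_coe y, ?_⟩
  have e : (y : K) * a = (x : K) := by
    rw [← h]
    field_simp
  rw [e]
  exact NumberField.RingOfIntegers.isIntegral_coe x

/-- denominators of a polynomial -/
theorem denp (f : MvPolynomial σ K) : ∃ N : K, N ≠ 0 ∧ IsIntegral ℤ N ∧
    ∀ y : σ → K, (∀ i, IsIntegral ℤ (y i)) → IsIntegral ℤ (N * MvPolynomial.eval y f) := by
  induction f using MvPolynomial.induction_on with
  | C a =>
    obtain ⟨N, h0, h1, h2⟩ := den a
    refine ⟨N, h0, h1, fun y _ => ?_⟩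
    rw [MvPolynomial.eval_C]
    exact h2
  | add p q hp hq =>
    obtain ⟨N, h0, h1, h2⟩ := hp
    obtain ⟨M, g0, g1, g2⟩ := hq
    refine ⟨N * M, mul_ne_zero h0 g0, h1.mul g1, fun y hy => ?_⟩
    have e : N * M * MvPolynomial.eval y (p + q) = M * (N * MvPolynomial.eval y p) +
        N * (M * MvPolynomial.eval y q) := by
      rw [map_add]
      ring
    rw [e]
    exact (g1.mul (h2 y hy)).add (h1.mul (g2 y hy))
  | mul_X p i hp =>
    obtain ⟨N, h0, h1, h2⟩ := hp
    refine ⟨N, h0, h1, fun y hy => ?_⟩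
    rw [map_mul, MvPolynomial.eval_X, ← mul_assoc]
    exact (h2 y hy).mul (hy i)

theorem dene (f : Polynomial (MvPolynomial σ K)) : ∃ N : K, N ≠ 0 ∧ IsIntegral ℤ N ∧
    ∀ (y : σ → K) (t : K), (∀ i, IsIntegral ℤ (y i)) → IsIntegral ℤ t →
      IsIntegral ℤ (N * ev y t f) := by
  induction f using Polynomial.induction_on with
  | C a =>
    obtain ⟨N, h0, h1, h2⟩ := denp a
    refine ⟨N, h0, h1, fun y t hy _ => ?_⟩
    rw [ev_C]
    exact h2 y hy
  | add p q hp hq =>
    obtain ⟨N, h0, h1, h2⟩ := hp
    obtain ⟨M, g0, g1, g2⟩ := hq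
    refine ⟨N * M, mul_ne_zero h0 g0, h1.mul g1, fun y t hy ht => ?_⟩
    have e : N * M * ev y t (p + q) = M * (N * ev y t p) + N * (M * ev y t q) := by
      rw [map_add]
      ring
    rw [e]
    exact (g1.mul (h2 y t hy ht)).add (h1.mul (g2 y t hy ht))
  | monomial n a hp =>
    obtain ⟨N, h0, h1, h2⟩ := hp
    refine ⟨N, h0, h1, fun y t hy ht => ?_⟩
    have e : N * ev y t (Polynomial.C a * Polynomial.X ^ (n + 1)) =
        N * ev y t (Polynomial.C a * Polynomial.X ^ n) * t := by
      rw [pow_succ, map_mul, map_mul, map_mul, ev_X]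
      ring
    rw [e]
    exact (h2 y t hy ht).mul ht

/-- common denominators of a finite family -/
theorem deneF {J : Type} [Fintype J] (a : J → Polynomial (MvPolynomial σ K)) :
    ∃ N : K, N ≠ 0 ∧ IsIntegral ℤ N ∧
    ∀ (j : J) (y : σ → K) (t : K), (∀ i, IsIntegral ℤ (y i)) → IsIntegral ℤ t →
      IsIntegral ℤ (N * ev y t (a j)) := by
  classical
  choose N h0 h1 h2 using fun j => dene (a j)
  refine ⟨∏ j, N j, Finset.prod_ne_zero_iff.2 fun j _ => h0 j, ?_, ?_⟩
  · exact IsIntegral.prod _ fun j _ => h1 j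
  · intro j y t hy ht
    rw [← Finset.prod_erase_mul univ N (Finset.mem_univ j), mul_assoc]
    exact (IsIntegral.prod _ fun j _ => h1 j).mul (h2 j y t hy ht)

/-- **the algebraic input** -/
theorem alg [UniqueFactorizationMonoid (MvPolynomial σ K)] {J : Type} [Fintype J]
    (f : J → MvPolynomial σ K)
    (hf : ∀ g : MvPolynomial σ K, (∀ j, g ∣ f j) → IsUnit g) (e : σ → K) :
    ∃ R : MvPolynomial σ K, R ≠ 0 ∧
      (∀ y : σ → K, (∀ i, IsIntegral ℤ (y i)) → IsIntegral ℤ (MvPolynomial.eval y R)) ∧
      ∀ (y : σ → K) (t : K), (∀ i, IsIntegral ℤ (y i)) → IsIntegral ℤ t →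
        ∃ a : J → K, (∀ j, IsIntegral ℤ (a j)) ∧
          MvPolynomial.eval y R = ∑ j, a j * MvPolynomial.eval (fun i => y i + t * e i) (f j) := by
  obtain ⟨R, hR, a, ha⟩ := comb f hf e
  obtain ⟨N, hN0, hN1, hN2⟩ := deneF a
  obtain ⟨M, hM0, hM1, hM2⟩ := denp R
  refine ⟨MvPolynomial.C (M * N) * R, mul_ne_zero ?_ hR, ?_, ?_⟩
  · rw [Ne, MvPolynomial.C_eq_zero]
    exact mul_ne_zero hM0 hN0
  · intro y hy
    rw [map_mul, MvPolynomial.eval_C, mul_comm M N, mul_assoc]
    exact hN1.mul (hM2 y hy)
  · intro y t hy ht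
    refine ⟨fun j => M * (N * ev y t (a j)), fun j => hM1.mul (hN2 j y t hy ht), ?_⟩
    rw [map_mul, MvPolynomial.eval_C, ha y t, Finset.mul_sum]
    refine Finset.sum_congr rfl fun j _ => ?_
    ring

end int

end Pool.Agent.H437.WM
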