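import Pool.Agent.H437.WM.Wc

/-!
Weak Manin near the pullback of `O(1)`: averaging over the lines in a fixed direction.
-/

set_option autoImplicit false

namespace Pool.Agent.H437.WM

open Finset NumberField Module
open Pool.Agent.Q35.MM

variable {K : Type} [Field K] [NumberField K]

/-- the zeros of a polynomial in a box -/
theorem szc {n : ℕ} (R : MvPolynomial (Fin (n + 1)) K) (hR : R ≠ 0) [DecidableEq K] (S : Finset K)
    (hS : S.Nonempty) :
    (((Fintype.piFinset fun _ : Fin (n + 1) => S).filter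
      fun y => MvPolynomial.eval y R = 0).card : ℝ) ≤ R.totalDegree * (S.card : ℝ) ^ n := by
  have h := MvPolynomial.schwartz_zippel_totalDegree hR S
  have hs : (0 : ℚ≥0) < S.card := by exact_mod_cast hS.card_pos
  rw [div_le_iff₀ (by positivity)] at h
  have h2 : (R.totalDegree : ℚ≥0) / S.card * (S.card : ℚ≥0) ^ (n + 1) =
      R.totalDegree * (S.card : ℚ≥0) ^ n := by
    rw [pow_succ]
    field_simp
  rw [h2] at h
  exact_mod_cast h

theorem avc {n : ℕ} (R : MvPolynomial (Fin (n + 1)) K) (hR : R ≠ 0) (e : Fin (n + 1) → K)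
    (he : ∀ i, IsIntegral ℤ (e i)) :
    ∃ L : ℕ, 1 ≤ L ∧ ∃ C : ℝ, 0 ≤ C ∧ ∀ X : ℕ, 1 ≤ X →
      ∀ (Bad : (Fin (n + 1) → K) → Prop) (B : ℝ), 0 ≤ B →
      (∀ y ∈ bx K (n + 1) (L * X), MvPolynomial.eval y R ≠ 0 → ∀ Z : Finset K,
        (∀ t ∈ Z, t ∈ S1 K X) → (∀ t ∈ Z, Bad (fun i => y i + t * e i)) → (Z.card : ℝ) ≤ B) →
      ∀ Z : Finset (Fin (n + 1) → K), (∀ x ∈ Z, x ∈ bx K (n + 1) X) → (∀ x ∈ Z, Bad x) →
        (Z.card : ℝ) ≤ C * (X : ℝ) ^ (dg K * n) * (1 + B) := by
  classical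
  choose E0 hE01 hE0 using fun i => Pool.Agent.Q279.MC.Bas79.exists_S1 (he i)
  obtain ⟨E, hE⟩ : ∃ E : ℕ, ∀ i, e i ∈ S1 K E :=
    ⟨∑ i, E0 i, fun i => Pool.Agent.Q279.MC.Bas79.S1_mono
      (Finset.single_le_sum (fun _ _ => Nat.zero_le _) (Finset.mem_univ i)) (hE0 i)⟩
  obtain ⟨c, hc, hlow⟩ := S1_lower K
  obtain ⟨Cs, hCs, hs⟩ := Pool.Agent.Q279.MC.Bas79.card_le (K := K)
  obtain ⟨Cb, hCb, hb⟩ := Pool.Agent.Q279.MC.Bas79.bx_card (K := K) (n + 1)
  set L : ℝ := 1 + (E : ℝ) with hL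
  have hL0 : 0 < L := by positivity
  have hCs0 : 0 ≤ Cs := by linarith
  have hCb0 : 0 ≤ Cb := by linarith
  refine ⟨1 + E, by omega, R.totalDegree * (Cs * L ^ dg K) ^ n + Cb * L ^ (dg K * (n + 1)) / c,
    by positivity, fun X hX Bad B hB hW Z hZ hbad => ?_⟩
  have hX1 : (1 : ℝ) ≤ X := by exact_mod_cast hX
  have hX0 : (0 : ℝ) < X := by linarith
  set S : Finset K := (S1_finite K X).toFinset with hS
  have hmS : ∀ t, t ∈ S ↔ t ∈ S1 K X := by
    intro t
    rw [hS, Set.Finite.mem_toFinset]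
  have hSl : c * (X : ℝ) ^ dg K ≤ (S.card : ℝ) := hlow X hX
  have hSpos : 0 < (S.card : ℝ) := lt_of_lt_of_le (by positivity) hSl
  have hLX : 1 ≤ (1 + E) * X := Nat.one_le_iff_ne_zero.2 (by positivity)
  have hLXr : (((1 + E) * X : ℕ) : ℝ) = L * X := by
    rw [hL]
    push_cast
    ring
  set Y : Finset (Fin (n + 1) → K) := bx K (n + 1) ((1 + E) * X) with hY
  set Wf : (Fin (n + 1) → K) → Finset K := fun y => S.filter fun t =>
    Bad (fun i => y i + t * e i) with hWf
  -- the pairs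
  have hpair : (Z ×ˢ S).card ≤ (Y.sigma Wf).card := by
    refine Finset.card_le_card_of_injOn
      (fun q : (Fin (n + 1) → K) × K => (⟨fun i => q.1 i - q.2 * e i, q.2⟩ :
        (_ : Fin (n + 1) → K) × K)) ?_ ?_
    · rintro ⟨x, t⟩ hxt
      rw [Finset.mem_coe, Finset.mem_product] at hxt
      obtain ⟨hx, ht⟩ := hxt
      have hx' := hZ x hx
      rw [mem_bx] at hx'
      have ht' := (hmS t).1 ht
      rw [Finset.mem_coe, Finset.mem_sigma]
      refine ⟨?_, ?_⟩
      · show (fun i => x i - t * e i) ∈ Y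
        rw [hY, mem_bx]
        intro i
        have h1 := Pool.Agent.Q279.MC.Bas79.S1_sub (hx' i)
          (Pool.Agent.Q279.MC.Bas79.S1_mul ht' (hE i))
        have e1 : X + X * E = (1 + E) * X := by ring
        rwa [e1] at h1
      · show t ∈ Wf (fun i => x i - t * e i)
        rw [hWf]
        simp only
        rw [mem_filter]
        refine ⟨ht, ?_⟩
        have e1 : (fun i => x i - t * e i + t * e i) = x := by
          funext i
          ring
        rw [e1]
        exact hbad x hx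
    · rintro ⟨x, t⟩ _ ⟨x', t'⟩ _ h
      simp only [Sigma.mk.injEq, heq_eq_eq] at h
      obtain ⟨h1, h2⟩ := h
      subst h2
      have : x = x' := by
        funext i
        exact sub_left_injective (congrFun h1 i)
      rw [this]
  rw [Finset.card_product, Finset.card_sigma] at hpair
  set Y0 : Finset (Fin (n + 1) → K) := Y.filter fun y => MvPolynomial.eval y R = 0 with hY0
  have hsum : (∑ y ∈ Y, (Wf y).card : ℕ) ≤ (Y0.card : ℝ) * S.card + Y.card * B := by
    have h1 : ∀ y ∈ Y, ((Wf y).card : ℝ) ≤ (if MvPolynomial.eval y R = 0 then (S.card : ℝ) else 0) + B := by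
      intro y hy
      split_ifs with h
      · have : ((Wf y).card : ℝ) ≤ S.card := by
          exact_mod_cast Finset.card_filter_le _ _
        linarith
      · rw [zero_add]
        exact hW y hy h (Wf y)
          (fun t ht => (hmS t).1 (mem_filter.1 ht).1) (fun t ht => (mem_filter.1 ht).2)
    push_cast
    refine (Finset.sum_le_sum h1).trans (le_of_eq ?_)
    rw [Finset.sum_add_distrib, Finset.sum_const, nsmul_eq_mul, ← Finset.sum_filter,
      Finset.sum_const, nsmul_eq_mul]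
  have h2 : (Z.card : ℝ) * S.card ≤ (Y0.card : ℝ) * S.card + Y.card * B := by
    refine le_trans ?_ hsum
    exact_mod_cast hpair
  have h3 : (Z.card : ℝ) ≤ Y0.card + Y.card * B / S.card := by
    rw [← sub_le_iff_le_add', le_div_iff₀ hSpos, sub_mul]
    linarith
  -- the zeros of `R`
  have h4 : (Y0.card : ℝ) ≤ R.totalDegree * (Cs * L ^ dg K) ^ n * (X : ℝ) ^ (dg K * n) := by
    have hne : ((S1_finite K ((1 + E) * X)).toFinset).Nonempty :=
      ⟨0, by
        rw [Set.Finite.mem_toFinset]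
        exact Pool.Agent.Q279.MC.Bas79.S1_zero _⟩
    have h5 := szc R hR _ hne
    have h6 := hs ((1 + E) * X) hLX (S1_finite K ((1 + E) * X)).toFinset (fun x hx => by
      rwa [Set.Finite.mem_toFinset] at hx)
    refine (le_trans ?_ h5).trans ?_
    · exact le_of_eq rfl
    · rw [hLXr] at h6
      have h7 : (((S1_finite K ((1 + E) * X)).toFinset.card : ℝ)) ^ n ≤
          (Cs * L ^ dg K) ^ n * (X : ℝ) ^ (dg K * n) := by
        rw [pow_mul, ← mul_pow]
        apply pow_le_pow_left₀ (Nat.cast_nonneg _)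
        refine h6.trans (le_of_eq ?_)
        rw [mul_pow]
        ring
      calc (R.totalDegree : ℝ) * (((S1_finite K ((1 + E) * X)).toFinset.card : ℝ)) ^ n
          ≤ R.totalDegree * ((Cs * L ^ dg K) ^ n * (X : ℝ) ^ (dg K * n)) :=
            mul_le_mul_of_nonneg_left h7 (Nat.cast_nonneg _)
        _ = _ := by ring
  have h5 : (Y.card : ℝ) * B / S.card ≤ Cb * L ^ (dg K * (n + 1)) / c * (X : ℝ) ^ (dg K * n) * B := by
    have h6 := hb ((1 + E) * X) hLX
    rw [hLXr, mul_pow] at h6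
    have h7 : (Y.card : ℝ) * B / S.card ≤
        (Cb * (L ^ (dg K * (n + 1)) * (X : ℝ) ^ (dg K * (n + 1)))) * B / (c * (X : ℝ) ^ dg K) := by
      gcongr
    refine h7.trans (le_of_eq ?_)
    have e1 : (X : ℝ) ^ (dg K * (n + 1)) = (X : ℝ) ^ (dg K * n) * (X : ℝ) ^ dg K := by
      rw [← pow_add]
      congr 1
    rw [e1]
    have : 0 < (X : ℝ) ^ dg K := by positivity
    field_simp
  have hP : 0 ≤ R.totalDegree * (Cs * L ^ dg K) ^ n * (X : ℝ) ^ (dg K * n) * B := by positivity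
  have hP2 : 0 ≤ Cb * L ^ (dg K * (n + 1)) / c * (X : ℝ) ^ (dg K * n) := by positivity
  calc (Z.card : ℝ) ≤ Y0.card + Y.card * B / S.card := h3
    _ ≤ R.totalDegree * (Cs * L ^ dg K) ^ n * (X : ℝ) ^ (dg K * n) +
        Cb * L ^ (dg K * (n + 1)) / c * (X : ℝ) ^ (dg K * n) * B := add_le_add h4 h5
    _ ≤ _ := by
        have e1 : (R.totalDegree * (Cs * L ^ dg K) ^ n + Cb * L ^ (dg K * (n + 1)) / c) *
            (X : ℝ) ^ (dg K * n) * (1 + B) =
            R.totalDegree * (Cs * L ^ dg K) ^ n * (X : ℝ) ^ (dg K * n) +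
            Cb * L ^ (dg K * (n + 1)) / c * (X : ℝ) ^ (dg K * n) * B +
            (R.totalDegree * (Cs * L ^ dg K) ^ n * (X : ℝ) ^ (dg K * n) * B +
            Cb * L ^ (dg K * (n + 1)) / c * (X : ℝ) ^ (dg K * n)) := by ring
        rw [e1]
        linarith

end Pool.Agent.H437.WM
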