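import Mathlib

/-!
Weak Manin near the pullback of `O(1)`: the dyadic summation (sharp form).
-/

set_option autoImplicit false

namespace Pool.Agent.H437.WM

open Finset

/-- The dyadic summation. -/
theorem dyc {P ι : Type} [Fintype ι] (n : ℕ) (H : P → ℝ) (h : ι → P → ℝ) (m : ι → ℕ)
    (hm : ∀ i, 1 ≤ m i) (U : Set P) (hH : ∀ p, 1 ≤ H p) (hh : ∀ i p, 1 ≤ h i p)
    (hFP : ∃ C : ℝ, 0 ≤ C ∧ ∀ B : ℝ, 1 ≤ B → {p | H p ≤ B}.Finite ∧
      ({p | H p ≤ B}.ncard : ℝ) ≤ C * B ^ (n + 1))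
    (hSB : ∀ i, ∀ ε : ℝ, 0 < ε → ∃ C : ℝ, 0 ≤ C ∧ ∀ B M : ℝ, 1 ≤ B → 1 ≤ M →
      {p | p ∈ U ∧ H p ≤ B ∧ h i p * M ^ m i ≤ B ^ m i}.Finite ∧
      ({p | p ∈ U ∧ H p ≤ B ∧ h i p * M ^ m i ≤ B ^ m i}.ncard : ℝ) ≤
        C * B ^ ε * (B ^ (n + 1) / M))
    (α : ℝ) (hα : 0 < α) (β : ι → ℝ) (hβ : ∀ i, 0 ≤ β i) (ε : ℝ) (hε : 0 < ε) :
    ∃ C : ℝ, ∀ T : ℝ, 1 ≤ T →
        {p | p ∈ U ∧ H p ^ α * ∏ i, h i p ^ β i ≤ T}.Finite ∧
        ({p | p ∈ U ∧ H p ^ α * ∏ i, h i p ^ β i ≤ T}.ncard : ℝ) ≤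
          C * T ^ (max (((n : ℝ) + 1) / (α + ∑ i, m i * β i)) (n / α) + ε) := by
  classical
  obtain ⟨C0, hC0, hFP⟩ := hFP
  have hn0 : (0 : ℝ) ≤ n := Nat.cast_nonneg _
  set μ : ℝ := ∑ i, m i * β i with hμ
  have hμ0 : 0 ≤ μ := Finset.sum_nonneg fun i _ => mul_nonneg (Nat.cast_nonneg _) (hβ i)
  set A : ℝ := α + μ with hA
  have hA0 : 0 < A := by linarith
  set σ : ℝ := ((n : ℝ) + 1) / A with hσ
  have hσ0 : 0 < σ := by positivity
  set F : ℝ := max σ (n / α) with hF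
  set ε1 : ℝ := ε * α / 2 with hε1
  have hε10 : 0 < ε1 := by positivity
  choose Ci hCi hSB using fun i => hSB i ε1 hε10
  -- constants
  set D1 : ℝ := 2 ^ (μ * σ) with hD1
  set D3 : ℝ := 2 ^ (ε1 * μ / A) with hD3
  have hlog2 : 0 < Real.log 2 := Real.log_pos (by norm_num)
  set D4 : ℝ := 1 / α / (ε / 2) / Real.log 2 with hD4
  have hD40 : 0 ≤ D4 := by positivity
  refine ⟨C0 * D1 + D4 * ((∑ i, Ci i) * (D3 * D1)), fun T hT => ?_⟩
  have hT0 : 0 < T := by linarith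
  set Bk : ℕ → ℝ := fun k => (T * 2 ^ ((k + 1 : ℝ) * μ)) ^ (1 / A) with hBk
  have hin1 : ∀ k : ℕ, 1 ≤ T * 2 ^ ((k + 1 : ℝ) * μ) := by
    intro k
    have : (1 : ℝ) ≤ 2 ^ ((k + 1 : ℝ) * μ) := Real.one_le_rpow (by norm_num) (by positivity)
    nlinarith
  have hBk1 : ∀ k, 1 ≤ Bk k := fun k => Real.one_le_rpow (hin1 k) (by positivity)
  have hBk0 : ∀ k, 0 < Bk k := fun k => by linarith [hBk1 k]
  set S : Set P := {p | p ∈ U ∧ H p ^ α * ∏ i, h i p ^ β i ≤ T} with hS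
  -- upper bound for `H`
  have hbound : ∀ (k : ℕ) (p : P), p ∈ S → (∀ i, H p ^ m i ≤ h i p * (2 ^ (k + 1)) ^ m i) →
      H p ≤ Bk k := by
    intro k p hp hr
    have hH0 : 0 < H p := by linarith [hH p]
    have h1 : H p ^ A ≤ T * 2 ^ ((k + 1 : ℝ) * μ) := by
      have e1 : H p ^ A = H p ^ α * ∏ i, (H p ^ m i) ^ β i := by
        rw [hA, Real.rpow_add hH0, hμ, Real.rpow_sum_of_pos hH0]
        congr 1
        refine Finset.prod_congr rfl fun i _ => ?_
        rw [← Real.rpow_natCast, ← Real.rpow_mul hH0.le]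
      have e2 : ∏ i, (H p ^ m i) ^ β i ≤ ∏ i, (h i p * (2 ^ (k + 1)) ^ m i) ^ β i := by
        refine Finset.prod_le_prod (fun i _ => by positivity) fun i _ => ?_
        exact Real.rpow_le_rpow (by positivity) (hr i) (hβ i)
      have e3 : ∏ i, (h i p * (2 ^ (k + 1)) ^ m i) ^ β i =
          (∏ i, h i p ^ β i) * 2 ^ ((k + 1 : ℝ) * μ) := by
        have e4 : ∀ i, (h i p * (2 ^ (k + 1)) ^ m i) ^ β i =
            h i p ^ β i * 2 ^ ((k + 1 : ℝ) * (m i * β i)) := by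
          intro i
          rw [Real.mul_rpow (by linarith [hh i p]) (by positivity), ← pow_mul,
            ← Real.rpow_natCast, ← Real.rpow_mul (by norm_num)]
          congr 2
          push_cast
          ring
        rw [Finset.prod_congr rfl fun i _ => e4 i, Finset.prod_mul_distrib,
          ← Real.rpow_sum_of_pos (by norm_num), ← Finset.mul_sum]
      rw [e1]
      calc H p ^ α * ∏ i, (H p ^ m i) ^ β i ≤ H p ^ α * ∏ i, (h i p * (2 ^ (k + 1)) ^ m i) ^ β i := by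
            gcongr
        _ = (H p ^ α * ∏ i, h i p ^ β i) * 2 ^ ((k + 1 : ℝ) * μ) := by rw [e3]; ring
        _ ≤ _ := by
            have := hp.2
            gcongr
    calc H p = (H p ^ A) ^ (1 / A) := by
          rw [← Real.rpow_mul hH0.le, mul_one_div_cancel hA0.ne', Real.rpow_one]
      _ ≤ _ := Real.rpow_le_rpow (by positivity) h1 (by positivity)
  -- `H ≤ T ^ (1 / α)`
  have hHT : ∀ p ∈ S, H p ≤ T ^ (1 / α) := by
    intro p hp
    have hH0 : 0 < H p := by linarith [hH p]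
    have h1 : H p ^ α ≤ T := by
      refine le_trans ?_ hp.2
      apply le_mul_of_one_le_right (by positivity)
      have : ∏ i : ι, (1 : ℝ) ≤ ∏ i, h i p ^ β i :=
        Finset.prod_le_prod (fun _ _ => zero_le_one) fun i _ =>
          Real.one_le_rpow (hh i p) (hβ i)
      rwa [Finset.prod_const_one] at this
    calc H p = (H p ^ α) ^ (1 / α) := by
          rw [← Real.rpow_mul hH0.le, mul_one_div_cancel hα.ne', Real.rpow_one]
      _ ≤ _ := Real.rpow_le_rpow (by positivity) h1 (by positivity)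
  have hTm1 : 1 ≤ T ^ (1 / α) := Real.one_le_rpow hT (by positivity)
  set kmax : ℕ := Nat.log 2 ⌊T ^ (1 / α)⌋₊ with hkmax
  have hfl : ⌊T ^ (1 / α)⌋₊ ≠ 0 := by
    have : 1 ≤ ⌊T ^ (1 / α)⌋₊ := Nat.le_floor (by exact_mod_cast hTm1)
    omega
  have hkle : ∀ k : ℕ, (2 : ℝ) ^ k ≤ T ^ (1 / α) ↔ k ≤ kmax := by
    intro k
    rw [hkmax, Nat.le_log_iff_pow_le (by norm_num) hfl, Nat.le_floor_iff (by positivity)]
    push_cast
    exact Iff.rfl
  set Sk : ℕ → ι → Set P := fun k i =>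
    {p | p ∈ U ∧ H p ≤ Bk k ∧ h i p * (2 ^ k) ^ m i ≤ Bk k ^ m i} with hSk
  -- the covering
  have hcov : S ⊆ {p | H p ≤ Bk 0} ∪ ⋃ q ∈ (Finset.Icc 1 kmax) ×ˢ (Finset.univ : Finset ι),
      Sk q.1 q.2 := by
    intro p hp
    by_cases hall : ∀ i, H p ^ m i ≤ h i p * 2 ^ m i
    · left
      apply hbound 0 p hp
      intro i
      rw [zero_add, pow_one]
      exact hall i
    · right
      push Not at hall
      obtain ⟨i1, hi1⟩ := hall
      have hne : Nonempty ι := ⟨i1⟩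
      have hH0 : 0 < H p := by linarith [hH p]
      have hh0 : ∀ i, 0 < h i p := fun i => by linarith [hh i p]
      have hmi : ∀ i, (0 : ℝ) < m i := fun i => by exact_mod_cast hm i
      set g : ι → ℝ := fun i => (H p ^ m i / h i p) ^ (1 / (m i : ℝ)) with hg
      have hg0 : ∀ i, 0 < g i := fun i => by
        have := hh0 i
        positivity
      have hgm : ∀ i, g i ^ m i = H p ^ m i / h i p := by
        intro i
        have h1 : 0 < H p ^ m i / h i p := by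
          have := hh0 i
          positivity
        rw [hg]
        simp only
        rw [← Real.rpow_natCast, ← Real.rpow_mul h1.le, one_div, inv_mul_cancel₀ (hmi i).ne',
          Real.rpow_one]
      obtain ⟨i0, hi0⟩ := Finite.exists_max g
      have hr2 : 2 ≤ g i0 := by
        refine le_trans ?_ (hi0 i1)
        have h1 : (2 : ℝ) ^ m i1 ≤ g i1 ^ m i1 := by
          rw [hgm, le_div_iff₀ (hh0 i1), mul_comm]
          exact hi1.le
        exact le_of_pow_le_pow_left₀ (by have := hm i1; omega) (hg0 i1).le h1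
      set r : ℝ := g i0 with hr
      have hfr : ⌊r⌋₊ ≠ 0 := by
        have : 2 ≤ ⌊r⌋₊ := Nat.le_floor (by exact_mod_cast hr2)
        omega
      set k : ℕ := Nat.log 2 ⌊r⌋₊ with hk
      have hk1 : (2 : ℝ) ^ k ≤ r := by
        have h1 : 2 ^ k ≤ ⌊r⌋₊ := Nat.pow_log_le_self 2 hfr
        have h2 : ((2 ^ k : ℕ) : ℝ) ≤ r := (Nat.le_floor_iff (by linarith)).1 h1
        push_cast at h2
        exact h2
      have hk2 : r < (2 : ℝ) ^ (k + 1) := by
        have h1 : ⌊r⌋₊ < 2 ^ (k + 1) := Nat.lt_pow_succ_log_self (by norm_num) _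
        have h2 := (Nat.floor_lt (by linarith)).1 h1
        push_cast at h2
        exact h2
      have hk0 : 1 ≤ k := by
        have h1 : 2 ≤ ⌊r⌋₊ := Nat.le_floor (by exact_mod_cast hr2)
        exact Nat.log_pos (by norm_num) h1
      have hHB : H p ≤ Bk k := by
        apply hbound k p hp
        intro i
        have h1 : g i ^ m i ≤ (2 ^ (k + 1)) ^ m i :=
          pow_le_pow_left₀ (hg0 i).le ((hi0 i).trans hk2.le) _
        rw [hgm, div_le_iff₀ (hh0 i), mul_comm] at h1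
        exact h1
      rw [Set.mem_iUnion₂]
      refine ⟨(k, i0), ?_, ?_⟩
      · rw [Finset.mem_product, Finset.mem_Icc]
        refine ⟨⟨hk0, ?_⟩, Finset.mem_univ _⟩
        rw [← hkle]
        refine hk1.trans ?_
        refine le_trans ?_ (hHT p hp)
        have h1 : r ^ m i0 ≤ H p ^ m i0 := by
          rw [hr, hgm]
          exact div_le_self (by positivity) (hh i0 p)
        exact le_of_pow_le_pow_left₀ (by have := hm i0; omega) hH0.le h1
      · rw [hSk]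
        refine ⟨hp.1, hHB, ?_⟩
        have h1 : h i0 p * (2 ^ k) ^ m i0 ≤ H p ^ m i0 := by
          have h2 : ((2 : ℝ) ^ k) ^ m i0 ≤ g i0 ^ m i0 := pow_le_pow_left₀ (by positivity) hk1 _
          rw [hgm, le_div_iff₀ (hh0 i0), mul_comm] at h2
          exact h2
        refine h1.trans ?_
        gcongr
  have hfinF : ∀ B : ℝ, 1 ≤ B → {p | H p ≤ B}.Finite := fun B hB => (hFP B hB).1
  have hp2 : ∀ k : ℕ, (1 : ℝ) ≤ 2 ^ k := fun k => one_le_pow₀ (by norm_num)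
  have hfinS : ∀ k i, (Sk k i).Finite := fun k i => (hSB i (Bk k) (2 ^ k) (hBk1 k) (hp2 k)).1
  have hfinU : ({p | H p ≤ Bk 0} ∪ ⋃ q ∈ (Finset.Icc 1 kmax) ×ˢ (Finset.univ : Finset ι),
      Sk q.1 q.2).Finite := by
    refine (hfinF _ (hBk1 0)).union ?_
    exact Set.Finite.biUnion (Finset.finite_toSet _) fun q _ => hfinS q.1 q.2
  refine ⟨hfinU.subset hcov, ?_⟩
  have hcard : (S.ncard : ℝ) ≤ ({p | H p ≤ Bk 0}.ncard : ℝ) +
      ∑ q ∈ (Finset.Icc 1 kmax) ×ˢ (Finset.univ : Finset ι), ((Sk q.1 q.2).ncard : ℝ) := by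
    have h1 := Set.ncard_le_ncard hcov hfinU
    have h2 := h1.trans (Set.ncard_union_le _ _)
    have h3 : (⋃ q ∈ (Finset.Icc 1 kmax) ×ˢ (Finset.univ : Finset ι), Sk q.1 q.2).ncard ≤
        ∑ q ∈ (Finset.Icc 1 kmax) ×ˢ (Finset.univ : Finset ι), (Sk q.1 q.2).ncard :=
      Finset.set_ncard_biUnion_le _ _
    have h4 := h2.trans (Nat.add_le_add_left h3 _)
    exact_mod_cast h4
  -- the bounds
  have hTσ : 0 < T ^ F := by positivity
  have hb1 : ∀ k : ℕ, k ≤ kmax → Bk k ^ ε1 ≤ D3 * T ^ (ε / 2) := by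
    intro k hk
    have h1 : (2 : ℝ) ^ k ≤ T ^ (1 / α) := (hkle k).2 hk
    have h2 : T * 2 ^ ((k + 1 : ℝ) * μ) ≤ 2 ^ μ * T ^ (A / α) := by
      have e1 : (2 : ℝ) ^ ((k + 1 : ℝ) * μ) = ((2 : ℝ) ^ k) ^ μ * 2 ^ μ := by
        rw [add_mul, one_mul, Real.rpow_add (by norm_num), Real.rpow_mul (by norm_num),
          Real.rpow_natCast]
      have e2 : ((2 : ℝ) ^ k) ^ μ ≤ T ^ (1 / α * μ) := by
        rw [Real.rpow_mul hT0.le]
        exact Real.rpow_le_rpow (by positivity) h1 hμ0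
      have e3 : T ^ (A / α) = T * T ^ (1 / α * μ) := by
        have : A / α = 1 + 1 / α * μ := by
          rw [hA]
          field_simp
        rw [this, Real.rpow_add hT0, Real.rpow_one]
      rw [e1, e3]
      calc T * (((2 : ℝ) ^ k) ^ μ * 2 ^ μ) ≤ T * (T ^ (1 / α * μ) * 2 ^ μ) := by gcongr
        _ = _ := by ring
    calc Bk k ^ ε1 ≤ ((2 ^ μ * T ^ (A / α)) ^ (1 / A)) ^ ε1 := by
          apply Real.rpow_le_rpow (hBk0 k).le _ hε10.le
          rw [hBk]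
          exact Real.rpow_le_rpow (by linarith [hin1 k]) h2 (by positivity)
      _ = _ := by
          have q1 : (0 : ℝ) ≤ 2 ^ μ * T ^ (A / α) := by positivity
          have q2 : (0 : ℝ) ≤ 2 ^ μ := by positivity
          have q3 : (0 : ℝ) ≤ T ^ (A / α) := by positivity
          have q4 : (0 : ℝ) ≤ 2 := by norm_num
          rw [← Real.rpow_mul q1, Real.mul_rpow q2 q3, ← Real.rpow_mul q4,
            ← Real.rpow_mul hT0.le, hD3]
          congr 2
          · ring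
          · rw [hε1]
            field_simp
  have hb3 : ∀ (k : ℕ), k ≤ kmax → Bk k ^ (n + 1) / (2 : ℝ) ^ k ≤ D1 * T ^ F := by
    intro k hk
    have e1 : Bk k ^ (n + 1) = T ^ σ * 2 ^ ((k + 1 : ℝ) * (μ * σ)) := by
      rw [hBk]
      simp only
      rw [← Real.rpow_natCast, ← Real.rpow_mul (by linarith [hin1 k]),
        Real.mul_rpow hT0.le (by positivity), ← Real.rpow_mul (by norm_num)]
      congr 2
      · rw [hσ]
        push_cast
        ring
      · rw [hσ]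
        push_cast
        ring
    have e2 : Bk k ^ (n + 1) / (2 : ℝ) ^ k = D1 * (T ^ σ * ((2 : ℝ) ^ k) ^ (μ * σ - 1)) := by
      rw [e1, hD1]
      have h1 : (2 : ℝ) ^ ((k + 1 : ℝ) * (μ * σ)) = 2 ^ (μ * σ) * ((2 : ℝ) ^ k) ^ (μ * σ) := by
        rw [add_mul, one_mul, Real.rpow_add (by norm_num), Real.rpow_mul (by norm_num),
          Real.rpow_natCast]
        ring
      have h2 : ((2 : ℝ) ^ k) ^ (μ * σ - 1) = ((2 : ℝ) ^ k) ^ (μ * σ) / 2 ^ k := by
        rw [Real.rpow_sub (by positivity), Real.rpow_one]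
      rw [h1, h2]
      ring
    rw [e2]
    apply mul_le_mul_of_nonneg_left _ (by positivity)
    rcases le_total (μ * σ) 1 with hc | hc
    · have h1 : ((2 : ℝ) ^ k) ^ (μ * σ - 1) ≤ 1 :=
        Real.rpow_le_one_of_one_le_of_nonpos (hp2 k) (by linarith)
      calc T ^ σ * ((2 : ℝ) ^ k) ^ (μ * σ - 1) ≤ T ^ σ * 1 := by gcongr
        _ = T ^ σ := mul_one _
        _ ≤ T ^ F := Real.rpow_le_rpow_of_exponent_le hT (le_max_left _ _)
    · have h1 : ((2 : ℝ) ^ k) ^ (μ * σ - 1) ≤ (T ^ (1 / α)) ^ (μ * σ - 1) :=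
        Real.rpow_le_rpow (by positivity) ((hkle k).2 hk) (by linarith)
      calc T ^ σ * ((2 : ℝ) ^ k) ^ (μ * σ - 1) ≤ T ^ σ * (T ^ (1 / α)) ^ (μ * σ - 1) := by gcongr
        _ = T ^ (n / α) := by
            rw [← Real.rpow_mul hT0.le, ← Real.rpow_add hT0]
            congr 1
            rw [hσ, hA]
            have hA' : α + μ ≠ 0 := by
              rw [← hA]
              exact hA0.ne'
            field_simp
            ring
        _ ≤ T ^ F := Real.rpow_le_rpow_of_exponent_le hT (le_max_right _ _)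
  have hk4 : (kmax : ℝ) ≤ D4 * T ^ (ε / 2) := by
    have h1 : (2 : ℝ) ^ kmax ≤ T ^ (1 / α) := (hkle kmax).2 le_rfl
    have h2 := Real.log_le_log (by positivity) h1
    rw [Real.log_pow, Real.log_rpow hT0] at h2
    have h3 : Real.log T ≤ T ^ (ε / 2) / (ε / 2) := Real.log_le_rpow_div hT0.le (by positivity)
    have h4 : (kmax : ℝ) * Real.log 2 ≤ 1 / α * (T ^ (ε / 2) / (ε / 2)) :=
      h2.trans (mul_le_mul_of_nonneg_left h3 (by positivity))
    rw [← le_div_iff₀ hlog2] at h4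
    refine h4.trans (le_of_eq ?_)
    rw [hD4]
    ring
  have hterm : ∀ q ∈ (Finset.Icc 1 kmax) ×ˢ (Finset.univ : Finset ι),
      ((Sk q.1 q.2).ncard : ℝ) ≤ Ci q.2 * ((D3 * D1) * (T ^ (ε / 2) * T ^ F)) := by
    rintro ⟨k, i⟩ hq
    rw [Finset.mem_product, Finset.mem_Icc] at hq
    have hk : k ≤ kmax := hq.1.2
    refine ((hSB i (Bk k) (2 ^ k) (hBk1 k) (hp2 k)).2).trans ?_
    have g1 := hb1 k hk
    have g3 := hb3 k hk
    have g4 : 0 ≤ Bk k ^ (n + 1) / (2 : ℝ) ^ k := by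
      have := hBk0 k
      positivity
    calc Ci i * Bk k ^ ε1 * (Bk k ^ (n + 1) / (2 : ℝ) ^ k)
        ≤ Ci i * (D3 * T ^ (ε / 2)) * (D1 * T ^ F) := by
          have := hCi i
          gcongr
      _ = _ := by ring
  have hCs : 0 ≤ ∑ i, Ci i := Finset.sum_nonneg fun i _ => hCi i
  have hsum : ∑ q ∈ (Finset.Icc 1 kmax) ×ˢ (Finset.univ : Finset ι), ((Sk q.1 q.2).ncard : ℝ) ≤
      D4 * ((∑ i, Ci i) * (D3 * D1)) * (T ^ (ε / 2) * (T ^ (ε / 2) * T ^ F)) := by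
    refine (Finset.sum_le_sum hterm).trans ?_
    rw [Finset.sum_product]
    simp only
    rw [Finset.sum_const, Nat.card_Icc, Nat.add_sub_cancel, nsmul_eq_mul, ← Finset.sum_mul]
    calc (kmax : ℝ) * ((∑ i, Ci i) * ((D3 * D1) * (T ^ (ε / 2) * T ^ F)))
        ≤ (D4 * T ^ (ε / 2)) * ((∑ i, Ci i) * ((D3 * D1) * (T ^ (ε / 2) * T ^ F))) := by
          gcongr
      _ = _ := by ring
  have hfirst : ({p | H p ≤ Bk 0}.ncard : ℝ) ≤ C0 * (D1 * T ^ F) := by
    refine ((hFP (Bk 0) (hBk1 0)).2).trans ?_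
    have h1 : Bk 0 ^ (n + 1) ≤ D1 * T ^ F := by
      have := hb3 0 (Nat.zero_le _)
      rwa [pow_zero, div_one] at this
    gcongr
  have hTe : T ^ (ε / 2) * (T ^ (ε / 2) * T ^ F) = T ^ (F + ε) := by
    rw [← Real.rpow_add hT0, ← Real.rpow_add hT0]
    congr 1
    ring
  have hTe2 : T ^ F ≤ T ^ (F + ε) := Real.rpow_le_rpow_of_exponent_le hT (by linarith)
  calc (S.ncard : ℝ) ≤ _ := hcard
    _ ≤ C0 * (D1 * T ^ F) +
        D4 * ((∑ i, Ci i) * (D3 * D1)) * (T ^ (ε / 2) * (T ^ (ε / 2) * T ^ F)) :=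
        add_le_add hfirst hsum
    _ ≤ C0 * (D1 * T ^ (F + ε)) + D4 * ((∑ i, Ci i) * (D3 * D1)) * T ^ (F + ε) := by
        rw [hTe]
        gcongr
    _ = _ := by ring

end Pool.Agent.H437.WM
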