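import Pool.Agent.H437.WM.Pl

/-!
Weak Manin near the pullback of `O(1)`: the sharp bound for the number of integral elements at which
a polynomial with a fixed leading coefficient lies in an ideal and has small conjugates.
-/

set_option autoImplicit false

namespace Pool.Agent.H437.WM

open Finset NumberField Module
open Pool.Agent.Q35.MM

theorem cl2 {α : Type} [DecidableEq α] (Z : Finset α) (sep : α → α → Prop) (hirr : ∀ x, ¬ sep x x)
    (hsymm : ∀ x y, sep x y → sep y x) :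
    ∃ Z' ⊆ Z, (∀ x ∈ Z', ∀ y ∈ Z', x ≠ y → sep x y) ∧ ∀ x ∈ Z, ∃ y ∈ Z', ¬ sep x y := by
  classical
  set Q : Finset (Finset α) := Z.powerset.filter
    fun P => ∀ c ∈ P, ∀ d ∈ P, c ≠ d → sep c d with hQ
  have hQne : Q.Nonempty := ⟨∅, by rw [hQ, mem_filter]; simp⟩
  obtain ⟨P, hP, hmax⟩ := Finset.exists_max_image Q Finset.card hQne
  rw [hQ, mem_filter, mem_powerset] at hP
  obtain ⟨hPG, hPs⟩ := hP
  refine ⟨P, hPG, hPs, fun v hv => ?_⟩
  by_contra hcon
  push Not at hcon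
  have hvP : v ∉ P := fun h => hirr v (hcon v h)
  have h1 : insert v P ∈ Q := by
    rw [hQ, mem_filter, mem_powerset]
    refine ⟨insert_subset hv hPG, ?_⟩
    intro c hc d hd hcd
    rw [mem_insert] at hc hd
    rcases hc with rfl | hc <;> rcases hd with rfl | hd
    · exact absurd rfl hcd
    · exact hcon d hd
    · exact hsymm _ _ (hcon c hc)
    · exact hPs c hc d hd hcd
  have h2 := hmax _ h1
  rw [card_insert_of_notMem hvP] at h2
  omega

/-- covering by the fibres of several families of balls -/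
theorem cover {α S : Type} [DecidableEq α] [Fintype S] (Z : Finset α)
    (sep : S → α → α → Prop) (hirr : ∀ s x, ¬ sep s x x) (hsymm : ∀ s x y, sep s x y → sep s y x)
    (m : ℕ) (hm : ∀ s, ∀ Z' ⊆ Z, (∀ x ∈ Z', ∀ y ∈ Z', x ≠ y → sep s x y) → Z'.card ≤ m)
    (N : ℕ) (hN : ∀ b : S → α, (∀ s, b s ∈ Z) → ∀ W ⊆ Z, (∀ x ∈ W, ∀ s, ¬ sep s x (b s)) → W.card ≤ N) :
    Z.card ≤ N * m ^ Fintype.card S := by
  classical
  choose Z' hZ' hsep hc using fun s => cl2 Z (sep s) (hirr s) (hsymm s)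
  choose! c hcm hcs using hc
  have h1 : (Z.image fun x s => c s x) ⊆ Fintype.piFinset Z' := by
    intro b hb
    rw [mem_image] at hb
    obtain ⟨x, hx, rfl⟩ := hb
    rw [Fintype.mem_piFinset]
    exact fun s => hcm s x hx
  have h2 : (Z.image fun x s => c s x).card ≤ m ^ Fintype.card S := by
    refine (card_le_card h1).trans ?_
    rw [Fintype.card_piFinset, ← Finset.card_univ, ← Finset.prod_const]
    exact Finset.prod_le_prod' fun s _ => hm s (Z' s) (hZ' s) (hsep s)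
  refine (Finset.card_le_mul_card_image Z N ?_).trans (Nat.mul_le_mul_left _ h2)
  intro b hb
  rw [mem_image] at hb
  obtain ⟨x, hx, rfl⟩ := hb
  apply hN (fun s => c s x) (fun s => hZ' s (hcm s x hx)) _ (filter_subset _ _)
  intro z hz s
  rw [mem_filter] at hz
  have := hcs s z hz.1
  rwa [← congrFun hz.2 s]

section

variable {K : Type} [Field K] [NumberField K]

theorem lag [DecidableEq K] (m : ℕ) (p : Polynomial K) (hp : p.natDegree ≤ m) (s : Finset K)
    (hs : s.card = m + 1) :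
    p.coeff m = ∑ i ∈ s, p.eval i / ∏ j ∈ s.erase i, (i - j) := by
  have h := Lagrange.coeff_eq_sum (s := s) (v := fun x : K => x) (fun _ _ _ _ h => h) (P := p) (by
    rw [hs]
    refine lt_of_le_of_lt (Polynomial.degree_le_of_natDegree_le hp) ?_
    exact_mod_cast Nat.lt_succ_self m)
  rw [hs, Nat.add_sub_cancel] at h
  exact h

theorem place_neg (v : FinitePlace K) (x : K) : v (-x) = v x := v.val.map_neg x

/-- separated integral elements of a weighted box -/
theorem count2 (Z : Finset K) (r : (K →+* ℂ) → ℝ) (hr : ∀ φ, 0 < r φ) (G : ℝ) (hG : 0 < G)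
    (hd : ∀ x ∈ Z, ∀ y ∈ Z, x ≠ y → G ≤ ∏ φ : K →+* ℂ, ‖φ (x - y)‖)
    (hZ : ∀ x ∈ Z, ∀ φ : K →+* ℂ, ‖φ x‖ ≤ r φ) :
    (Z.card : ℝ) ≤ 4 ^ dg K * ((∏ φ, r φ) / G + 1) := by
  classical
  have hd1 : 0 < dg K := Module.finrank_pos
  have hd0 : (0 : ℝ) < (dg K : ℝ) := by exact_mod_cast hd1
  set P : ℝ := (∏ φ, r φ) / G with hP
  have hR0 : 0 < ∏ φ, r φ := Finset.prod_pos fun φ _ => hr φ
  have hP0 : 0 < P := by positivity
  set τ : ℝ := (P ^ ((dg K : ℝ)⁻¹))⁻¹ with hτ
  have hτ0 : 0 < τ := by positivity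
  have hτd : τ ^ dg K = P⁻¹ := by
    rw [hτ, inv_pow, ← Real.rpow_natCast, ← Real.rpow_mul hP0.le, inv_mul_cancel₀ hd0.ne',
      Real.rpow_one]
  have h1 := pack Z r hr τ hτ0 hZ (by
    intro x hx y hy hxy
    by_contra hcon
    push Not at hcon
    have h2 := hd x hx y hy hxy
    have h3 : ∏ φ : K →+* ℂ, ‖φ (x - y)‖ < ∏ φ : K →+* ℂ, τ * r φ := by
      apply Finset.prod_lt_prod_of_nonempty
      · intro φ _
        exact norm_pos_iff.2 (by
          rw [Ne, map_eq_zero]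
          exact sub_ne_zero.2 hxy)
      · intro φ _
        exact hcon φ
      · exact Finset.univ_nonempty
    rw [Finset.prod_mul_distrib, Finset.prod_const, Finset.card_univ, card_emb, hτd, hP,
      inv_div, div_mul_cancel₀ _ hR0.ne'] at h3
    linarith)
  refine h1.trans ?_
  have h4 : 2 / τ + 1 ≤ 4 * max (1 / τ) 1 := by
    have h5 : 1 / τ ≤ max (1 / τ) 1 := le_max_left _ _
    have h6 : 1 ≤ max (1 / τ) 1 := le_max_right _ _
    have h7 : 2 / τ = 2 * (1 / τ) := by ring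
    rw [h7]
    linarith
  have h8 : (max (1 / τ) 1) ^ dg K ≤ P + 1 := by
    rcases le_total (1 / τ) 1 with h | h
    · rw [max_eq_right h, one_pow]
      linarith
    · rw [max_eq_left h, div_pow, one_pow, hτd, one_div, inv_inv]
      linarith
  calc (2 / τ + 1) ^ dg K ≤ (4 * max (1 / τ) 1) ^ dg K := by
        apply pow_le_pow_left₀ _ h4
        positivity
    _ = 4 ^ dg K * (max (1 / τ) 1) ^ dg K := by rw [mul_pow]
    _ ≤ 4 ^ dg K * (P + 1) := by gcongr

/-- few elements separated at a finite place -/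
theorem few_fin (m : ℕ) (hm : 1 ≤ m) (p : Polynomial K) (hp : p.natDegree ≤ m) (ha : p.coeff m ≠ 0)
    (v : FinitePlace K) (g : ℝ) (hg : 0 < g) (Z : Finset K) (hZ : ∀ x ∈ Z, v (p.eval x) ≤ g)
    (hs : ∀ x ∈ Z, ∀ y ∈ Z, x ≠ y → (g / v (p.coeff m)) ^ (1 / (m : ℝ)) < v (x - y)) :
    Z.card ≤ m := by
  classical
  have hm0 : (0 : ℝ) < m := by exact_mod_cast hm
  have hva : 0 < v (p.coeff m) := FinitePlace.pos_iff.2 ha
  set ρ : ℝ := (g / v (p.coeff m)) ^ (1 / (m : ℝ)) with hρ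
  have hρ0 : 0 < ρ := by positivity
  have hρm : ρ ^ m = g / v (p.coeff m) := by
    rw [hρ, ← Real.rpow_natCast, ← Real.rpow_mul (by positivity), one_div, inv_mul_cancel₀ hm0.ne',
      Real.rpow_one]
  by_contra hcon
  push Not at hcon
  obtain ⟨s, hsS, hsc⟩ := Finset.exists_subset_card_eq (n := m + 1) (s := Z) hcon
  have h1 := lag m p hp s hsc
  -- every term is smaller than the leading coefficient
  have hterm : ∀ i ∈ s, v (p.eval i / ∏ j ∈ s.erase i, (i - j)) < v (p.coeff m) := by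
    intro i hi
    rw [map_div₀, map_prod]
    have h3 : ρ ^ m < ∏ j ∈ s.erase i, v (i - j) := by
      have e : ρ ^ m = ∏ j ∈ s.erase i, ρ := by
        rw [Finset.prod_const, Finset.card_erase_of_mem hi, hsc, Nat.add_sub_cancel]
      rw [e]
      apply Finset.prod_lt_prod_of_nonempty
      · exact fun _ _ => hρ0
      · intro j hj
        exact hs i (hsS hi) j (hsS (Finset.mem_of_mem_erase hj)) (Finset.ne_of_mem_erase hj).symm
      · rw [← Finset.card_pos, Finset.card_erase_of_mem hi, hsc]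
        omega
    rw [hρm] at h3
    have h4 : 0 < ∏ j ∈ s.erase i, v (i - j) := lt_trans (by positivity) h3
    rw [div_lt_iff₀ h4]
    rw [div_lt_iff₀ hva] at h3
    calc v (p.eval i) ≤ g := hZ i (hsS hi)
      _ < _ := by linarith
  have hne : s.Nonempty := by
    rw [← Finset.card_pos, hsc]
    omega
  obtain ⟨i0, hi0, hmax⟩ := Finset.exists_max_image s
    (fun i => v (p.eval i / ∏ j ∈ s.erase i, (i - j))) hne
  have h2 : v (p.coeff m) ≤ v (p.eval i0 / ∏ j ∈ s.erase i0, (i0 - j)) := by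
    conv_lhs => rw [h1]
    exact place_sum_le v s _ _ (apply_nonneg _ _) hmax
  exact absurd h2 (not_le.2 (hterm i0 hi0))

/-- few elements separated at an embedding -/
theorem few_inf (m : ℕ) (hm : 1 ≤ m) (p : Polynomial K) (hp : p.natDegree ≤ m) (ha : p.coeff m ≠ 0)
    (φ : K →+* ℂ) (g C : ℝ) (hg : 0 < g) (hC1 : 1 ≤ C) (hC : (m + 1 : ℝ) < C * ‖φ (p.coeff m)‖)
    (Z : Finset K) (hZ : ∀ x ∈ Z, ‖φ (p.eval x)‖ ≤ g ^ m)
    (hs : ∀ x ∈ Z, ∀ y ∈ Z, x ≠ y → C * g ≤ ‖φ (x - y)‖) :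
    Z.card ≤ m := by
  classical
  have hm0 : (0 : ℝ) < m := by exact_mod_cast hm
  have hva : 0 < ‖φ (p.coeff m)‖ := by
    rw [norm_pos_iff, Ne, map_eq_zero]
    exact ha
  by_contra hcon
  push Not at hcon
  obtain ⟨s, hsS, hsc⟩ := Finset.exists_subset_card_eq (n := m + 1) (s := Z) hcon
  have h1 := lag m p hp s hsc
  have h2 : ‖φ (p.coeff m)‖ ≤ ∑ i ∈ s, g ^ m / (C * g) ^ m := by
    conv_lhs => rw [h1]
    rw [map_sum]
    refine (norm_sum_le _ _).trans (Finset.sum_le_sum fun i hi => ?_)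
    rw [map_div₀, norm_div, map_prod, norm_prod]
    have h3 : (C * g) ^ m ≤ ∏ j ∈ s.erase i, ‖φ (i - j)‖ := by
      have e : (C * g) ^ m = ∏ j ∈ s.erase i, (C * g) := by
        rw [Finset.prod_const, Finset.card_erase_of_mem hi, hsc, Nat.add_sub_cancel]
      rw [e]
      refine Finset.prod_le_prod (fun _ _ => by positivity) fun j hj => ?_
      exact hs i (hsS hi) j (hsS (Finset.mem_of_mem_erase hj)) (Finset.ne_of_mem_erase hj).symm
    exact div_le_div₀ (by positivity) (hZ i (hsS hi)) (by positivity) h3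
  rw [Finset.sum_const, hsc, nsmul_eq_mul, mul_pow C] at h2
  have h5 : g ^ m / (C ^ m * g ^ m) = (C ^ m)⁻¹ := by
    have : (0 : ℝ) < g ^ m := by positivity
    field_simp
  rw [h5] at h2
  have h6 : C ≤ C ^ m := le_self_pow₀ hC1 (by omega)
  have h8 : C ^ m * ‖φ (p.coeff m)‖ ≤ m + 1 := by
    have h9 : 0 < C ^ m := by positivity
    push_cast at h2
    rw [← div_eq_mul_inv, le_div_iff₀ h9] at h2
    linarith
  have h12 : C * ‖φ (p.coeff m)‖ ≤ C ^ m * ‖φ (p.coeff m)‖ := mul_le_mul_of_nonneg_right h6 hva.le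
  linarith

/-- **the sharp bound** -/
theorem linc (m : ℕ) (hm : 1 ≤ m) (a : K) (ha : a ≠ 0) (hai : IsIntegral ℤ a) (η : ℝ) (hη : 0 < η) :
    ∃ C : ℝ, 0 < C ∧
    ∀ p : Polynomial K, p.natDegree ≤ m → p.coeff m = a →
    ∀ I : Ideal (𝓞 K), I ≠ ⊥ → ∀ s : (K →+* ℂ) → ℝ, (∀ φ, 0 < s φ) →
    ∀ Z : Finset K, (∀ x ∈ Z, IsIntegral ℤ x) → (∀ x ∈ Z, ∃ z ∈ I, (z : K) = p.eval x) →
      (∀ x ∈ Z, ∀ φ : K →+* ℂ, ‖φ (p.eval x)‖ ≤ s φ ^ m) →
      (Z.card : ℝ) ≤ C * (Ideal.absNorm I : ℝ) ^ η *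
        ((∏ φ, s φ) * (Ideal.absNorm I : ℝ) ^ (-(1 / (m : ℝ))) + 1) := by
  classical
  have hm0 : (0 : ℝ) < m := by exact_mod_cast hm
  have hφa : ∀ φ : K →+* ℂ, 0 < ‖φ a‖ := by
    intro φ
    rw [norm_pos_iff, Ne, map_eq_zero]
    exact ha
  set A : ℝ := ∑ φ : K →+* ℂ, ‖φ a‖⁻¹ with hA
  have hAφ : ∀ φ : K →+* ℂ, ‖φ a‖⁻¹ ≤ A := fun φ =>
    Finset.single_le_sum (f := fun φ : K →+* ℂ => ‖φ a‖⁻¹) (fun φ _ => (inv_pos.2 (hφa φ)).le)
      (Finset.mem_univ φ)
  have hA0 : 0 ≤ A := Finset.sum_nonneg fun φ _ => (inv_pos.2 (hφa φ)).le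
  set C1 : ℝ := (m + 1) * A + 1 with hC1
  have hC11 : 1 ≤ C1 := by
    have : 0 ≤ ((m : ℝ) + 1) * A := by positivity
    linarith
  have hC1φ : ∀ φ : K →+* ℂ, (m + 1 : ℝ) < C1 * ‖φ a‖ := by
    intro φ
    have h11 : ((m : ℝ) + 1) * ‖φ a‖⁻¹ < C1 := by
      have := mul_le_mul_of_nonneg_left (hAφ φ) (by positivity : (0 : ℝ) ≤ m + 1)
      rw [hC1]
      linarith
    rw [← div_eq_mul_inv, div_lt_iff₀ (hφa φ)] at h11
    exact h11
  set Na : ℝ := ∏ φ : K →+* ℂ, ‖φ a‖ with hNa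
  have hNa0 : 0 < Na := prod_pos ha
  obtain ⟨Cp, hCp, hpow⟩ := pow_plc K (m : ℝ) (by exact_mod_cast hm) η hη
  set E : ℝ := (2 * C1) ^ dg K * Na ^ (1 / (m : ℝ)) with hE
  have hE0 : 0 < E := by positivity
  refine ⟨4 ^ dg K * (m : ℝ) ^ dg K * Cp * (E + 1), by positivity, ?_⟩
  intro p hp hpa I hI s hs Z hZi hZI hZs
  obtain ⟨g, hg0, hgI, hgN⟩ := loc I hI
  set P : Finset (FinitePlace K) := (plc_fin I hI).toFinset with hP
  have hNI : 0 < (Ideal.absNorm I : ℝ) := by
    have : Ideal.absNorm I ≠ 0 := by rwa [Ne, Ideal.absNorm_eq_zero_iff]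
    exact_mod_cast Nat.pos_of_ne_zero this
  set N : ℝ := (Ideal.absNorm I : ℝ) with hN
  have hpa0 : p.coeff m ≠ 0 := by rw [hpa]; exact ha
  -- the radii at the finite places
  set ρ : FinitePlace K → ℝ := fun v => (g v / v a) ^ (1 / (m : ℝ)) with hρ
  have hva : ∀ v : FinitePlace K, 0 < v a := fun v => FinitePlace.pos_iff.2 ha
  have hρ0 : ∀ v, 0 < ρ v := fun v => by
    have := hg0 v
    have := hva v
    positivity
  have hprodρ : ∏ v ∈ P, ρ v ≤ (Na / N) ^ (1 / (m : ℝ)) := by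
    rw [hρ]
    simp only
    rw [Real.finset_prod_rpow _ _ (fun v _ => by
      have := hg0 v
      have := hva v
      positivity)]
    apply Real.rpow_le_rpow (Finset.prod_nonneg fun v _ => by
      have := hg0 v
      have := hva v
      positivity) _ (by positivity)
    rw [Finset.prod_div_distrib]
    have h1 : ∏ v ∈ P, g v = N⁻¹ := eq_inv_of_mul_eq_one_left (by rw [mul_comm]; exact hgN)
    have h2 := prod_place hai ha P
    have h3 : 0 < ∏ v ∈ P, v a := Finset.prod_pos fun v _ => hva v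
    rw [h1, div_le_iff₀ h3]
    calc N⁻¹ ≤ N⁻¹ * (Na * ∏ v ∈ P, v a) := le_mul_of_one_le_right (by positivity) h2
      _ = Na / N * ∏ v ∈ P, v a := by ring
  -- the covering
  let sep : ((K →+* ℂ) ⊕ P) → K → K → Prop := fun σ x y => Sum.elim
    (fun φ : K →+* ℂ => C1 * s φ ≤ ‖φ (x - y)‖) (fun v : P => ρ v.1 < v.1 (x - y)) σ
  set Bd : ℝ := 4 ^ dg K * ((∏ φ, 2 * (C1 * s φ)) / (∏ v ∈ P, ρ v)⁻¹ + 1) with hBd
  have hcov := cover (S := (K →+* ℂ) ⊕ P) Z sep
    (by
      rintro (φ | v) x h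
      · have h' : C1 * s φ ≤ ‖φ (x - x)‖ := h
        rw [sub_self, map_zero, norm_zero] at h'
        have := hs φ
        have : 0 < C1 * s φ := by positivity
        linarith
      · have h' : ρ v.1 < v.1 (x - x) := h
        rw [sub_self, map_zero] at h'
        have := hρ0 v.1
        linarith)
    (by
      rintro (φ | v) x y h
      · have h' : C1 * s φ ≤ ‖φ (x - y)‖ := h
        show C1 * s φ ≤ ‖φ (y - x)‖
        rwa [← neg_sub, map_neg, norm_neg]
      · have h' : ρ v.1 < v.1 (x - y) := h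
        show ρ v.1 < v.1 (y - x)
        rwa [← neg_sub, place_neg] at h')
    m
    (by
      rintro (φ | v) Z' hZ' h
      · exact few_inf m hm p hp hpa0 φ (s φ) C1 (hs φ) hC11 (by rw [hpa]; exact hC1φ φ) Z'
          (fun x hx => hZs x (hZ' hx) φ) h
      · refine few_fin m hm p hp hpa0 v.1 (g v.1) (hg0 v.1) Z' (fun x hx => ?_) ?_
        · obtain ⟨z, hz, hzx⟩ := hZI x (hZ' hx)
          rw [← hzx]
          exact hgI v.1 z hz
        · rw [hpa]
          exact h)
    ⌊Bd⌋₊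
    (by
      intro b hb W hW hWb
      by_cases hWe : W.Nonempty
      swap
      · rw [Finset.not_nonempty_iff_eq_empty] at hWe
        rw [hWe, Finset.card_empty]
        exact Nat.zero_le _
      obtain ⟨w0, hw0⟩ := hWe
      have hbφ : ∀ x ∈ W, ∀ φ : K →+* ℂ, ‖φ (x - b (Sum.inl φ))‖ ≤ C1 * s φ := by
        intro x hx φ
        have h := hWb x hx (Sum.inl φ)
        exact (not_le.1 h).le
      have hbv : ∀ x ∈ W, ∀ v : P, v.1 (x - b (Sum.inr v)) ≤ ρ v.1 := by
        intro x hx v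
        have h := hWb x hx (Sum.inr v)
        exact not_lt.1 h
      have h1 := count2 (W.image fun z => z - w0) (fun φ => 2 * (C1 * s φ))
        (fun φ => by
          have := hs φ
          positivity)
        ((∏ v ∈ P, ρ v)⁻¹) (inv_pos.2 (Finset.prod_pos fun v _ => hρ0 v))
        (by
          intro x hx y hy hxy
          rw [mem_image] at hx hy
          obtain ⟨x, hx, rfl⟩ := hx
          obtain ⟨y, hy, rfl⟩ := hy
          have hxy' : x ≠ y := by
            rintro rfl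
            exact hxy rfl
          have e : x - w0 - (y - w0) = x - y := by ring
          rw [e]
          have h2 := prod_place ((hZi x (hW hx)).sub (hZi y (hW hy))) (sub_ne_zero.2 hxy') P
          have h3 : ∏ v ∈ P, v (x - y) ≤ ∏ v ∈ P, ρ v := by
            refine Finset.prod_le_prod (fun v _ => apply_nonneg _ _) fun v hv => ?_
            have e2 : x - y = (x - b (Sum.inr ⟨v, hv⟩)) + -(y - b (Sum.inr ⟨v, hv⟩)) := by ring
            rw [e2]
            refine (FinitePlace.add_le v _ _).trans (max_le (hbv x hx ⟨v, hv⟩) ?_)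
            rw [place_neg]
            exact hbv y hy ⟨v, hv⟩
          have h4 : 0 ≤ ∏ φ : K →+* ℂ, ‖φ (x - y)‖ := Finset.prod_nonneg fun _ _ => norm_nonneg _
          have h5 : 0 < ∏ v ∈ P, ρ v := Finset.prod_pos fun v _ => hρ0 v
          rw [inv_le_iff_one_le_mul₀ h5]
          refine h2.trans (mul_le_mul_of_nonneg_left h3 h4))
        (by
          intro x hx φ
          rw [mem_image] at hx
          obtain ⟨x, hx, rfl⟩ := hx
          have e : φ (x - w0) = φ (x - b (Sum.inl φ)) - φ (w0 - b (Sum.inl φ)) := by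
            rw [← map_sub]
            congr 1
            ring
          rw [e]
          refine (norm_sub_le _ _).trans ?_
          have g1 := hbφ x hx φ
          have g2 := hbφ w0 hw0 φ
          linarith)
      rw [Finset.card_image_of_injective _ (fun x y h => by
        have h' : x - w0 = y - w0 := h
        exact sub_left_injective h')] at h1
      exact Nat.le_floor h1)
  rw [Fintype.card_sum, card_emb, Fintype.card_coe] at hcov
  have hρP : 0 < ∏ v ∈ P, ρ v := Finset.prod_pos fun v _ => hρ0 v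
  have hs0 : 0 < ∏ φ, s φ := Finset.prod_pos fun φ _ => hs φ
  have hBd1 : Bd ≤ 4 ^ dg K * (E * ((∏ φ, s φ) * N ^ (-(1 / (m : ℝ)))) + 1) := by
    rw [hBd]
    have e1 : (∏ φ : K →+* ℂ, 2 * (C1 * s φ)) = (2 * C1) ^ dg K * ∏ φ, s φ := by
      have : ∀ φ : K →+* ℂ, 2 * (C1 * s φ) = (2 * C1) * s φ := fun φ => by ring
      rw [Finset.prod_congr rfl fun φ _ => this φ, Finset.prod_mul_distrib, Finset.prod_const,
        Finset.card_univ, card_emb]
    have e2 : (Na / N) ^ (1 / (m : ℝ)) = Na ^ (1 / (m : ℝ)) * N ^ (-(1 / (m : ℝ))) := by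
      rw [Real.div_rpow hNa0.le hNI.le, Real.rpow_neg hNI.le]
      rfl
    rw [div_inv_eq_mul, e1]
    have h1 : (2 * C1) ^ dg K * (∏ φ, s φ) * ∏ v ∈ P, ρ v ≤
        E * ((∏ φ, s φ) * N ^ (-(1 / (m : ℝ)))) := by
      calc (2 * C1) ^ dg K * (∏ φ, s φ) * ∏ v ∈ P, ρ v
          ≤ (2 * C1) ^ dg K * (∏ φ, s φ) * (Na / N) ^ (1 / (m : ℝ)) :=
            mul_le_mul_of_nonneg_left hprodρ (by positivity)
        _ = _ := by
            rw [e2, hE]
            ring
    gcongr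
  have hBd0 : 0 ≤ Bd := by
    rw [hBd]
    have : 0 < ∏ φ : K →+* ℂ, 2 * (C1 * s φ) := Finset.prod_pos fun φ _ => by
      have := hs φ
      positivity
    positivity
  have h1 : (Z.card : ℝ) ≤ Bd * (m ^ dg K * m ^ P.card) := by
    have h2 : (Z.card : ℝ) ≤ (⌊Bd⌋₊ : ℝ) * ((m : ℝ) ^ (dg K + P.card)) := by exact_mod_cast hcov
    rw [pow_add] at h2
    refine h2.trans ?_
    exact mul_le_mul_of_nonneg_right (Nat.floor_le hBd0) (by positivity)
  have h3 : (m : ℝ) ^ P.card ≤ Cp * N ^ η := hpow I hI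
  set Y : ℝ := (∏ φ, s φ) * N ^ (-(1 / (m : ℝ))) with hY
  have hY0 : 0 < Y := by positivity
  calc (Z.card : ℝ) ≤ Bd * (m ^ dg K * m ^ P.card) := h1
    _ ≤ (4 ^ dg K * (E * Y + 1)) * (m ^ dg K * (Cp * N ^ η)) := by gcongr
    _ = 4 ^ dg K * (m : ℝ) ^ dg K * Cp * N ^ η * (E * Y + 1) := by ring
    _ ≤ 4 ^ dg K * (m : ℝ) ^ dg K * Cp * N ^ η * ((E + 1) * (Y + 1)) := by
        have : E * Y + 1 ≤ (E + 1) * (Y + 1) := by nlinarith
        gcongr
    _ = _ := by ring

end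

end Pool.Agent.H437.WM
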