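import Mathlib
import Pool.Graph.R_pool_sql_team_seeded_3997aac3.Q279.MC.J.Bas79
import Pool.Graph.R_pool_sql_team_seeded_3997aac3.Q285.MM.Lw

/-!
Weak Manin near the pullback of `O(1)`: weighted packing of integral elements.
-/

set_option autoImplicit false

namespace Pool.Agent.H437.WM

open Finset NumberField Module
open Pool.Agent.Q35.MM

variable {K : Type} [Field K] [NumberField K]

/-- weighted conjugates -/
noncomputable def wps (r : (K →+* ℂ) → ℝ) : K →+ ((K →+* ℂ) → ℂ) where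
  toFun x := fun φ => (r φ)⁻¹ • φ x
  map_zero' := by
    funext φ
    rw [map_zero, smul_zero]
    rfl
  map_add' x y := by
    funext φ
    rw [map_add, smul_add]
    rfl

theorem wps_apply (r : (K →+* ℂ) → ℝ) (x : K) (φ : K →+* ℂ) : wps r x φ = (r φ)⁻¹ • φ x := rfl

theorem wps_inj (r : (K →+* ℂ) → ℝ) (hr : ∀ φ, 0 < r φ) : Function.Injective (wps r) := by
  intro x y h
  obtain ⟨φ⟩ : Nonempty (K →+* ℂ) := inferInstance
  have h1 := congrFun h φ
  rw [wps_apply, wps_apply] at h1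
  have h2 := smul_right_injective ℂ (inv_ne_zero (hr φ).ne') h1
  exact φ.injective h2

theorem wps_rat (r : (K →+* ℂ) → ℝ) (q : ℚ) (x : K) : wps r (q • x) = (q : ℝ) • wps r x := by
  funext φ
  have h : φ (q • x) = (q : ℝ) • φ x := by
    rw [Algebra.smul_def, map_mul, eq_ratCast, map_ratCast, Complex.real_smul]
    push_cast
    rfl
  rw [wps_apply, Pi.smul_apply, wps_apply, h, smul_comm]

/-- separated elements of a weighted box -/
theorem pack (Z : Finset K) (r : (K →+* ℂ) → ℝ) (hr : ∀ φ, 0 < r φ) (ρ : ℝ) (hρ : 0 < ρ)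
    (hZ : ∀ x ∈ Z, ∀ φ : K →+* ℂ, ‖φ x‖ ≤ r φ)
    (hs : ∀ x ∈ Z, ∀ y ∈ Z, x ≠ y → ∃ φ : K →+* ℂ, ρ * r φ ≤ ‖φ (x - y)‖) :
    (Z.card : ℝ) ≤ (2 / ρ + 1) ^ dg K := by
  classical
  let bs : Basis (Fin (dg K)) ℚ K := Module.finBasis ℚ K
  set E : Submodule ℝ ((K →+* ℂ) → ℂ) :=
    Submodule.span ℝ (Set.range fun i : Fin (dg K) => wps r (bs i)) with hE
  have hEf : finrank ℝ E ≤ dg K := by
    have := finrank_range_le_card (R := ℝ) (fun i : Fin (dg K) => wps r (bs i))
    rwa [Fintype.card_fin] at this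
  have hmemE : ∀ x : K, wps r x ∈ E := by
    intro x
    rw [← bs.sum_repr x, map_sum]
    refine Submodule.sum_mem _ fun i _ => ?_
    rw [wps_rat]
    exact Submodule.smul_mem _ _ (Submodule.subset_span ⟨i, rfl⟩)
  set s : Finset E := Z.image fun p => ⟨wps r p, hmemE p⟩ with hs'
  have hsc : s.card = Z.card := by
    rw [hs', card_image_of_injective]
    intro p q hpq
    simp only [Subtype.mk.injEq] at hpq
    exact wps_inj r hr hpq
  have h1 := _root_.Q144.MM.sep_card s 1 ρ hρ zero_le_one (by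
    intro c hc
    rw [hs', mem_image] at hc
    obtain ⟨p, hp, rfl⟩ := hc
    rw [Submodule.coe_norm, pi_norm_le_iff_of_nonneg zero_le_one]
    intro φ
    show ‖wps r p φ‖ ≤ 1
    rw [wps_apply, norm_smul, norm_inv, Real.norm_of_nonneg (hr φ).le, inv_mul_le_iff₀ (hr φ),
      mul_one]
    exact hZ p hp φ) (by
    intro c hc d hd hcd
    rw [hs', mem_image] at hc hd
    obtain ⟨p, hp, rfl⟩ := hc
    obtain ⟨q, hq, rfl⟩ := hd
    rw [Submodule.coe_norm]
    show ρ ≤ ‖wps r p - wps r q‖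
    rw [← map_sub]
    obtain ⟨φ, hφ⟩ := hs p hp q hq (by
      rintro rfl
      exact hcd rfl)
    refine le_trans ?_ (norm_le_pi_norm _ φ)
    rw [wps_apply, norm_smul, norm_inv, Real.norm_of_nonneg (hr φ).le, le_inv_mul_iff₀ (hr φ),
      mul_comm]
    exact hφ)
  rw [hsc, mul_one] at h1
  refine h1.trans (pow_le_pow_right₀ ?_ hEf)
  have : 0 < 2 / ρ := by positivity
  linarith

theorem prod_emb (x : K) : ∏ φ : K →+* ℂ, ‖φ x‖ = |((Algebra.norm ℚ x : ℚ) : ℝ)| := by
  have h1 : ∏ φ : K →+* ℂ, ‖φ x‖ = ‖∏ φ : K →ₐ[ℚ] ℂ, φ x‖ := by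
    rw [norm_prod]
    exact Fintype.prod_equiv (RingHom.equivRatAlgHom K ℂ) (fun f => ‖f x‖)
      (fun φ => ‖φ x‖) fun _ => by simp [RingHom.equivRatAlgHom_apply]
  rw [h1, ← Algebra.norm_eq_prod_embeddings ℚ ℂ x, eq_ratCast, ← Real.norm_eq_abs,
    ← Complex.norm_real, Complex.ofReal_ratCast]

/-- the norm of an ideal is at most the norm of its elements -/
theorem norm_ge (I : Ideal (𝓞 K)) (x : 𝓞 K) (hx : x ∈ I) (h0 : x ≠ 0) :
    (Ideal.absNorm I : ℝ) ≤ ∏ φ : K →+* ℂ, ‖φ (x : K)‖ := by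
  rw [prod_emb, ← Algebra.coe_norm_int]
  have h1 := Ideal.absNorm_dvd_norm_of_mem hx
  have h2 : Algebra.norm ℤ x ≠ 0 := Algebra.norm_ne_zero_iff.2 h0
  have h3 : (Ideal.absNorm I : ℤ) ≤ |Algebra.norm ℤ x| := Int.le_of_dvd (abs_pos.2 h2)
    ((dvd_abs _ _).2 h1)
  have h4 : ((Ideal.absNorm I : ℤ) : ℝ) ≤ ((|Algebra.norm ℤ x| : ℤ) : ℝ) := by exact_mod_cast h3
  push_cast at h4 ⊢
  exact h4

theorem one_le_prod {x : K} (hx : IsIntegral ℤ x) (h0 : x ≠ 0) : 1 ≤ ∏ φ : K →+* ℂ, ‖φ x‖ := by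
  have h := norm_ge (⊤ : Ideal (𝓞 K)) ⟨x, hx⟩ trivial (by
    intro h
    exact h0 (congrArg (fun z : 𝓞 K => (z : K)) h))
  rw [Ideal.absNorm_top, Nat.cast_one] at h
  exact h

/-- the product of the conjugates of a nonzero element is positive -/
theorem prod_pos {x : K} (h0 : x ≠ 0) : 0 < ∏ φ : K →+* ℂ, ‖φ x‖ :=
  Finset.prod_pos fun φ _ => norm_pos_iff.2 (by
    rw [Ne, map_eq_zero]
    exact h0)

theorem card_emb : Fintype.card (K →+* ℂ) = dg K := NumberField.Embeddings.card K ℂ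

/-- integral elements of a weighted box -/
theorem count (Z : Finset K) (r : (K →+* ℂ) → ℝ) (hr : ∀ φ, 0 < r φ)
    (hi : ∀ x ∈ Z, IsIntegral ℤ x) (hZ : ∀ x ∈ Z, ∀ φ : K →+* ℂ, ‖φ x‖ ≤ r φ) :
    (Z.card : ℝ) ≤ 4 ^ dg K * (∏ φ, r φ + 1) := by
  classical
  have hd : 0 < dg K := Module.finrank_pos
  have hd0 : (0 : ℝ) < (dg K : ℝ) := by exact_mod_cast hd
  set P : ℝ := ∏ φ, r φ with hP
  have hP0 : 0 < P := Finset.prod_pos fun φ _ => hr φ
  set τ : ℝ := (P ^ ((dg K : ℝ)⁻¹))⁻¹ with hτ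
  have hτ0 : 0 < τ := by positivity
  have hτd : τ ^ dg K = P⁻¹ := by
    rw [hτ, inv_pow, ← Real.rpow_natCast, ← Real.rpow_mul hP0.le, inv_mul_cancel₀ hd0.ne',
      Real.rpow_one]
  have h1 := pack Z r hr τ hτ0 hZ (by
    intro x hx y hy hxy
    by_contra hcon
    push Not at hcon
    have h2 := one_le_prod ((hi x hx).sub (hi y hy)) (sub_ne_zero.2 hxy)
    have h3 : ∏ φ : K →+* ℂ, ‖φ (x - y)‖ < ∏ φ : K →+* ℂ, τ * r φ := by
      apply Finset.prod_lt_prod_of_nonempty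
      · intro φ _
        exact norm_pos_iff.2 (by
          rw [Ne, map_eq_zero]
          exact sub_ne_zero.2 hxy)
      · intro φ _
        exact hcon φ
      · exact Finset.univ_nonempty
    rw [Finset.prod_mul_distrib, Finset.prod_const, Finset.card_univ, card_emb, hτd, ← hP,
      inv_mul_cancel₀ hP0.ne'] at h3
    linarith)
  refine h1.trans ?_
  have h4 : 2 / τ + 1 ≤ 4 * max (1 / τ) 1 := by
    have h5 : 1 / τ ≤ max (1 / τ) 1 := le_max_left _ _
    have h6 : 1 ≤ max (1 / τ) 1 := le_max_right _ _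
    have h7 : 2 / τ = 2 * (1 / τ) := by ring
    rw [h7]
    linarith
  have h8 : (max (1 / τ) 1) ^ dg K ≤ P + 1 := by
    rcases le_total (1 / τ) 1 with h | h
    · rw [max_eq_right h, one_pow]
      linarith
    · rw [max_eq_left h, div_pow, one_pow, hτd, one_div, inv_inv]
      linarith
  calc (2 / τ + 1) ^ dg K ≤ (4 * max (1 / τ) 1) ^ dg K := by
        apply pow_le_pow_left₀ _ h4
        positivity
    _ = 4 ^ dg K * (max (1 / τ) 1) ^ dg K := by rw [mul_pow]
    _ ≤ 4 ^ dg K * (P + 1) := by gcongr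

/-- the number of the elements of a box is large -/
theorem S1_lower (K : Type) [Field K] [NumberField K] : ∃ c : ℝ, 0 < c ∧ ∀ X : ℕ, 1 ≤ X →
    c * (X : ℝ) ^ dg K ≤ ((S1_finite K X).toFinset.card : ℝ) := by
  classical
  obtain ⟨c, hc, B0, h⟩ := Pool.Agent.Q285.MM.lw K 1 ⊤
  have hfr : Module.finrank K (⊤ : Submodule K (Fin 1 → K)) = 1 := by
    rw [finrank_top]
    simp
  rw [hfr] at h
  have hcard : ∀ X : ℕ, (((bx K 1 X).filter (· ∈ (⊤ : Submodule K (Fin 1 → K)))).card : ℝ) ≤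
      ((S1_finite K X).toFinset.card : ℝ) := by
    intro X
    have : ((bx K 1 X).filter (· ∈ (⊤ : Submodule K (Fin 1 → K)))).card ≤
        (S1_finite K X).toFinset.card := by
      refine Finset.card_le_card_of_injOn (fun x => x 0) ?_ ?_
      · intro x hx
        simp only [Finset.coe_filter, Submodule.mem_top, and_true, Set.mem_ofPred_eq, mem_bx] at hx
        simp only [Set.Finite.coe_toFinset]
        exact hx 0
      · intro x _ y _ hxy
        funext i
        have : i = 0 := Subsingleton.elim _ _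
        rw [this]
        exact hxy
    exact_mod_cast this
  have hpos : ∀ X : ℕ, (1 : ℝ) ≤ ((S1_finite K X).toFinset.card : ℝ) := by
    intro X
    have : 0 < (S1_finite K X).toFinset.card := by
      rw [Finset.card_pos]
      exact ⟨0, by
        rw [Set.Finite.mem_toFinset]
        exact Pool.Agent.Q279.MC.Bas79.S1_zero X⟩
    exact_mod_cast this
  refine ⟨min c (((B0 : ℝ) + 1) ^ dg K)⁻¹, by positivity, fun X hX => ?_⟩
  have hX0 : (0 : ℝ) ≤ (X : ℝ) ^ dg K := by positivity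
  by_cases hB : B0 ≤ X
  · refine le_trans ?_ (hcard X)
    have h1 := h X hB
    rw [mul_one] at h1
    refine le_trans (mul_le_mul_of_nonneg_right (min_le_left _ _) hX0) h1
  · refine le_trans ?_ (hpos X)
    refine le_trans (mul_le_mul_of_nonneg_right (min_le_right _ _) hX0) ?_
    rw [inv_mul_le_iff₀ (by positivity), mul_one]
    have : (X : ℝ) ≤ B0 + 1 := by
      have : X ≤ B0 + 1 := by omega
      exact_mod_cast this
    gcongr

end Pool.Agent.H437.WM
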