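import Pool.Agent.H437.WM.Pack
import Pool.Agent.H437.WM.Divi

/-!
Weak Manin near the pullback of `O(1)`: ideals and finite places.
-/

set_option autoImplicit false

namespace Pool.Agent.H437.WM

open Finset NumberField Module
open Pool.Agent.Q35.MM

variable {K : Type} [Field K] [NumberField K]

/-- the prime ideal of a finite place -/
noncomputable def pv (v : FinitePlace K) : Ideal (𝓞 K) := v.maximalIdeal.asIdeal

theorem pv_inj : Function.Injective (pv (K := K)) := by
  intro v w h
  apply FinitePlace.maximalIdeal_injective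
  exact IsDedekindDomain.HeightOneSpectrum.ext h

theorem pv_prime (v : FinitePlace K) : Prime (pv v) := v.maximalIdeal.prime

theorem pv_ne (v : FinitePlace K) : pv v ≠ ⊥ := v.maximalIdeal.ne_bot

/-- the finite places dividing an ideal -/
def plc (I : Ideal (𝓞 K)) : Set (FinitePlace K) := {v | pv v ∣ I}

theorem plc_fin (I : Ideal (𝓞 K)) (hI : I ≠ ⊥) : (plc I).Finite := by
  have h : Set.MapsTo (pv (K := K)) (plc I) (D I) := fun v hv => hv
  exact Set.Finite.of_injOn h (pv_inj.injOn) (D_fin I hI)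

theorem one_le_nv (v : FinitePlace K) : 1 ≤ (Ideal.absNorm (pv v) : ℝ) := by
  have : Ideal.absNorm (pv v) ≠ 0 := by
    rw [Ne, Ideal.absNorm_eq_zero_iff]
    exact pv_ne v
  exact_mod_cast Nat.one_le_iff_ne_zero.2 this

theorem small_fin (B : ℝ) : {v : FinitePlace K | (Ideal.absNorm (pv v) : ℝ) ≤ B}.Finite := by
  have h : Set.MapsTo (pv (K := K)) {v : FinitePlace K | (Ideal.absNorm (pv v) : ℝ) ≤ B}
      {I : Ideal (𝓞 K) | Ideal.absNorm I ≤ ⌊B⌋₊} := by
    intro v hv
    exact Nat.le_floor hv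
  exact Set.Finite.of_injOn h (pv_inj.injOn) (Ideal.finite_setOfPred_absNorm_le (S := 𝓞 K) ⌊B⌋₊)

theorem prod_nv_le (I : Ideal (𝓞 K)) (hI : I ≠ ⊥) :
    ∏ v ∈ (plc_fin I hI).toFinset, (Ideal.absNorm (pv v) : ℝ) ≤ Ideal.absNorm I := by
  classical
  have h1 : ∏ p ∈ (plc_fin I hI).toFinset.image (pv (K := K)), p ∣ I := by
    apply Finset.prod_primes_dvd
    · intro p hp
      rw [mem_image] at hp
      obtain ⟨v, -, rfl⟩ := hp
      exact pv_prime v
    · intro p hp
      rw [mem_image] at hp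
      obtain ⟨v, hv, rfl⟩ := hp
      rw [Set.Finite.mem_toFinset] at hv
      exact hv
  rw [Finset.prod_image (fun _ _ _ _ h => pv_inj h)] at h1
  have h2 := map_dvd (Ideal.absNorm (S := 𝓞 K)) h1
  rw [map_prod] at h2
  have h3 : Ideal.absNorm I ≠ 0 := by rwa [Ne, Ideal.absNorm_eq_zero_iff]
  have h4 := Nat.le_of_dvd (Nat.pos_of_ne_zero h3) h2
  exact_mod_cast h4

/-- powers of the number of the primes of an ideal -/
theorem pow_plc (K : Type) [Field K] [NumberField K] (q : ℝ) (hq : 1 ≤ q) (η : ℝ) (hη : 0 < η) :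
    ∃ C : ℝ, 0 < C ∧ ∀ (I : Ideal (𝓞 K)) (hI : I ≠ ⊥),
      q ^ ((plc_fin I hI).toFinset.card) ≤ C * (Ideal.absNorm I : ℝ) ^ η := by
  classical
  have hq0 : 0 < q := by linarith
  set B : ℝ := q ^ (1 / η) with hB
  set S : Finset (FinitePlace K) := (small_fin (K := K) B).toFinset with hS
  refine ⟨q ^ S.card, by positivity, fun I hI => ?_⟩
  set P := (plc_fin I hI).toFinset with hP
  have h1 : ∀ v ∈ P, q ≤ (if v ∈ S then q else 1) * (Ideal.absNorm (pv v) : ℝ) ^ η := by
    intro v _
    have hv1 := one_le_nv v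
    split_ifs with h
    · exact le_mul_of_one_le_right hq0.le (Real.one_le_rpow hv1 hη.le)
    · rw [one_mul]
      rw [hS, Set.Finite.mem_toFinset] at h
      have h2 : B < (Ideal.absNorm (pv v) : ℝ) := by
        by_contra hcon
        exact h (not_lt.1 hcon)
      have h3 : B ^ η = q := by
        rw [hB, ← Real.rpow_mul hq0.le, one_div, inv_mul_cancel₀ hη.ne', Real.rpow_one]
      calc q = B ^ η := h3.symm
        _ ≤ _ := Real.rpow_le_rpow (by positivity) h2.le hη.le
  calc q ^ P.card = ∏ v ∈ P, q := by rw [Finset.prod_const]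
    _ ≤ ∏ v ∈ P, ((if v ∈ S then q else 1) * (Ideal.absNorm (pv v) : ℝ) ^ η) :=
        Finset.prod_le_prod (fun _ _ => hq0.le) h1
    _ = (∏ v ∈ P, if v ∈ S then q else 1) * (∏ v ∈ P, (Ideal.absNorm (pv v) : ℝ)) ^ η := by
        rw [Finset.prod_mul_distrib, Real.finset_prod_rpow _ _ (fun v _ => by
          have := one_le_nv v
          linarith)]
    _ ≤ q ^ S.card * (Ideal.absNorm I : ℝ) ^ η := by
        have h2 : (∏ v ∈ P, if v ∈ S then q else (1 : ℝ)) ≤ q ^ S.card := by
          rw [Finset.prod_ite, Finset.prod_const, Finset.prod_const_one, mul_one]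
          apply pow_le_pow_right₀ hq
          apply Finset.card_le_card
          intro v hv
          exact (mem_filter.1 hv).2
        have h3 : (∏ v ∈ P, (Ideal.absNorm (pv v) : ℝ)) ^ η ≤ (Ideal.absNorm I : ℝ) ^ η :=
          Real.rpow_le_rpow (Finset.prod_nonneg fun v _ => Nat.cast_nonneg _) (prod_nv_le I hI) hη.le
        have h4 : 0 ≤ (∏ v ∈ P, (Ideal.absNorm (pv v) : ℝ)) ^ η :=
          Real.rpow_nonneg (Finset.prod_nonneg fun v _ => Nat.cast_nonneg _) _
        exact mul_le_mul h2 h3 h4 (by positivity)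

theorem place_sum_le {α : Type} (v : FinitePlace K) (s : Finset α) (f : α → K) (B : ℝ) (hB : 0 ≤ B)
    (h : ∀ i ∈ s, v (f i) ≤ B) : v (∑ i ∈ s, f i) ≤ B := by
  classical
  induction s using Finset.induction_on with
  | empty =>
    rw [Finset.sum_empty, map_zero]
    exact hB
  | insert a s ha ih =>
    rw [Finset.sum_insert ha]
    refine (FinitePlace.add_le v _ _).trans (max_le (h a (mem_insert_self _ _)) (ih fun i hi => h i (mem_insert_of_mem hi)))

/-- an integer has absolute value at most `1` -/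
theorem place_le_one (v : FinitePlace K) (x : 𝓞 K) : v (x : K) ≤ 1 := by
  rw [← FinitePlace.norm_embedding_eq]
  exact FinitePlace.norm_le_one K v.maximalIdeal x

theorem place_eq_one (v : FinitePlace K) (x : 𝓞 K) (hx : x ∉ pv v) : v (x : K) = 1 := by
  rw [← FinitePlace.norm_embedding_eq]
  exact (FinitePlace.norm_eq_one_iff_notMem K v.maximalIdeal x).2 hx

/-- the local absolute values of an ideal -/
theorem loc (I : Ideal (𝓞 K)) (hI : I ≠ ⊥) : ∃ g : FinitePlace K → ℝ, (∀ v, 0 < g v) ∧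
    (∀ v, ∀ u ∈ I, v (u : K) ≤ g v) ∧
    (Ideal.absNorm I : ℝ) * ∏ v ∈ (plc_fin I hI).toFinset, g v = 1 := by
  classical
  obtain ⟨k, y, hy⟩ : ∃ (k : ℕ) (y : Fin k → 𝓞 K), Ideal.span (Set.range y) = I := by
    have h : I.FG := (isNoetherianRing_iff_ideal_fg _).1 inferInstance I
    obtain ⟨k, y, hy⟩ := (Submodule.fg_iff_exists_fin_generating_family).1 h
    exact ⟨k, y, hy⟩
  have hy0 : y ≠ 0 := by
    rintro rfl
    apply hI
    rw [← hy, Ideal.span_eq_bot]
    rintro _ ⟨i, rfl⟩
    rfl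
  obtain ⟨i0, hi0⟩ := Function.ne_iff.mp hy0
  have hN := absNorm_mul_finprod_finitePlace_eq_one hy0
  rw [hy] at hN
  have hle : ∀ (v : FinitePlace K) i, v (y i : K) ≤ ⨆ i, v (y i : K) := fun v i =>
    le_ciSup (f := fun i => v (y i : K)) (Set.finite_range _).bddAbove i
  have hpos : ∀ v : FinitePlace K, 0 < ⨆ i, v (y i : K) := by
    intro v
    refine lt_of_lt_of_le ?_ (hle v i0)
    rw [FinitePlace.pos_iff]
    exact RingOfIntegers.coe_ne_zero_iff.2 hi0
  refine ⟨fun v => ⨆ i, v (y i : K), hpos, ?_, ?_⟩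
  · intro v u hu
    rw [← hy, Ideal.mem_span_range_iff_exists_fun] at hu
    obtain ⟨c, hc⟩ := hu
    have e : (u : K) = ∑ i, (c i : K) * (y i : K) := by
      rw [← hc]
      exact (map_sum (algebraMap (𝓞 K) K) _ _).trans
        (Finset.sum_congr rfl fun i _ => map_mul (algebraMap (𝓞 K) K) _ _)
    rw [e]
    apply place_sum_le v _ _ _ (hpos v).le
    intro i _
    rw [map_mul]
    calc v (c i : K) * v (y i : K) ≤ 1 * v (y i : K) :=
          mul_le_mul_of_nonneg_right (place_le_one v _) (apply_nonneg _ _)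
      _ ≤ _ := by
          rw [one_mul]
          exact hle v i
  · rw [finprod_eq_prod_of_mulSupport_subset (s := (plc_fin I hI).toFinset)] at hN
    · exact hN
    · intro v hv
      rw [Set.Finite.coe_toFinset]
      by_contra hcon
      apply hv
      have hcon' : ¬ pv v ∣ I := hcon
      rw [Ideal.dvd_iff_le] at hcon'
      obtain ⟨i, hi⟩ : ∃ i, y i ∉ pv v := by
        by_contra hall
        push Not at hall
        apply hcon'
        rw [← hy, Ideal.span_le]
        rintro _ ⟨i, rfl⟩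
        exact hall i
      apply le_antisymm
      · have : Nonempty (Fin k) := ⟨i⟩
        exact ciSup_le fun i => place_le_one v _
      · rw [← place_eq_one v (y i) hi]
        exact hle v i

/-- the product formula as an inequality -/
theorem prod_place {z : K} (hz : IsIntegral ℤ z) (h0 : z ≠ 0) (P : Finset (FinitePlace K)) :
    1 ≤ (∏ φ : K →+* ℂ, ‖φ z‖) * ∏ v ∈ P, v z := by
  classical
  have hfin := FinitePlace.hasFiniteMulSupport h0
  have h1 : ∏ᶠ v : FinitePlace K, v z ≤ ∏ v ∈ P, v z := by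
    have hfin' : (Function.mulSupport fun v : FinitePlace K => v z).Finite := hfin
    rw [finprod_eq_prod_of_mulSupport_subset (s := P ∪ hfin'.toFinset)]
    · rw [← Finset.prod_sdiff (Finset.subset_union_left (s₁ := P) (s₂ := hfin'.toFinset))]
      apply mul_le_of_le_one_left (Finset.prod_nonneg fun v _ => apply_nonneg _ _)
      exact Finset.prod_le_one (fun v _ => apply_nonneg _ _) fun v _ => place_le_one v ⟨z, hz⟩
    · intro v hv
      rw [Finset.coe_union, Set.Finite.coe_toFinset]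
      exact Or.inr hv
  have h2 : (∏ φ : K →+* ℂ, ‖φ z‖) * ∏ᶠ v : FinitePlace K, v z = 1 := by
    rw [prod_emb, FinitePlace.prod_eq_inv_abs_norm h0]
    have h3 : |((Algebra.norm ℚ z : ℚ) : ℝ)| ≠ 0 := by
      rw [abs_ne_zero]
      exact_mod_cast Algebra.norm_ne_zero_iff.2 h0
    push_cast
    exact mul_inv_cancel₀ h3
  calc 1 = (∏ φ : K →+* ℂ, ‖φ z‖) * ∏ᶠ v : FinitePlace K, v z := h2.symm
    _ ≤ _ := mul_le_mul_of_nonneg_left h1 (Finset.prod_nonneg fun _ _ => norm_nonneg _)

end Pool.Agent.H437.WM
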