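import Pool.Agent.H437.WM.Avc
import Pool.Graph.R_pool_sql_team_seeded_3997aac3.Q24.MM.MK

/-!
Weak Manin near the pullback of `O(1)`: the points of projective space at which the values of a
system of forms without common factor have a small height (sharp bound).
-/

set_option autoImplicit false

namespace Pool.Agent.H437.WM

open Finset NumberField Module
open Pool.Agent.Q35.MM

section pre

variable {K : Type} [Field K] {σ : Type}

theorem hom_eval [Fintype σ] (f : MvPolynomial σ K) (m : ℕ) (hf : f.IsHomogeneous m) (t : K)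
    (x : σ → K) :
    MvPolynomial.eval (fun i => t * x i) f = t ^ m * MvPolynomial.eval x f := by
  rw [MvPolynomial.eval_eq, MvPolynomial.eval_eq, Finset.mul_sum]
  refine Finset.sum_congr rfl fun d hd => ?_
  have h1 : d.degree = m := by
    have := hf (MvPolynomial.mem_support_iff.1 hd)
    rw [← this, Finsupp.degree_eq_weight_one]
    rfl
  have h2 : ∏ i ∈ d.support, (t * x i) ^ d i = t ^ m * ∏ i ∈ d.support, x i ^ d i := by
    simp only [mul_pow]
    rw [Finset.prod_mul_distrib, Finset.prod_pow_eq_pow_sum, ← h1]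
    rfl
  rw [h2]
  ring

end pre

variable {K : Type} [Field K] [NumberField K]

/-- an integral point at which a form does not vanish -/
theorem exists_e {σ : Type} [Fintype σ] (f : MvPolynomial σ K) (m : ℕ) (hf : f.IsHomogeneous m)
    (h0 : f ≠ 0) : ∃ e : σ → K, (∀ i, IsIntegral ℤ (e i)) ∧ MvPolynomial.eval e f ≠ 0 := by
  classical
  obtain ⟨e0, he0⟩ : ∃ e : σ → K, MvPolynomial.eval e f ≠ 0 := by
    by_contra hcon
    push Not at hcon
    apply h0
    apply MvPolynomial.funext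
    intro x
    rw [hcon x, map_zero]
  choose N hN0 hN1 hN2 using fun i => den (e0 i)
  refine ⟨fun i => (∏ j, N j) * e0 i, fun i => ?_, ?_⟩
  · show IsIntegral ℤ ((∏ j, N j) * e0 i)
    rw [← Finset.prod_erase_mul univ N (Finset.mem_univ i), mul_assoc]
    exact (IsIntegral.prod _ fun j _ => hN1 j).mul (hN2 i)
  · rw [hom_eval f m hf]
    exact mul_ne_zero (pow_ne_zero _ (Finset.prod_ne_zero_iff.2 fun j _ => hN0 j)) he0

/-- common denominators of the values of finitely many polynomials -/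
theorem denpF {σ J : Type} [Fintype J] (f : J → MvPolynomial σ K) :
    ∃ N : K, N ≠ 0 ∧ ∀ x : σ → K, (∀ i, IsIntegral ℤ (x i)) →
      ∀ j, IsIntegral ℤ (N * MvPolynomial.eval x (f j)) := by
  classical
  choose N h0 h1 h2 using fun j => denp (f j)
  refine ⟨∏ j, N j, Finset.prod_ne_zero_iff.2 fun j _ => h0 j, fun x hx j => ?_⟩
  rw [← Finset.prod_erase_mul univ N (Finset.mem_univ j), mul_assoc]
  exact (IsIntegral.prod _ fun j _ => h1 j).mul (h2 j x hx)

/-- the set to be counted -/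
def SetC {n : ℕ} {J : Type} [Fintype J] (f : J → MvPolynomial (Fin (n + 1)) K) (m : ℕ) (B M : ℝ) :
    Set (Projectivization K (Fin (n + 1) → K)) :=
  {p | p.mulHeight ≤ B ∧ (∃ j, MvPolynomial.eval p.rep (f j) ≠ 0) ∧
    Height.mulHeight (fun j => MvPolynomial.eval p.rep (f j)) * M ^ m ≤ B ^ m}

theorem prc0 {n m : ℕ} (hm : 1 ≤ m) {J : Type} [Fintype J]
    (f : J → MvPolynomial (Fin (n + 1)) K)
    (hf : ∀ g : MvPolynomial (Fin (n + 1)) K, (∀ j, g ∣ f j) → IsUnit g)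
    (hhom : ∀ j, (f j).IsHomogeneous m)
    (hint : ∀ x : Fin (n + 1) → K, (∀ i, IsIntegral ℤ (x i)) →
      ∀ j, IsIntegral ℤ (MvPolynomial.eval x (f j))) (ε : ℝ) (hε : 0 < ε) :
    ∃ C : ℝ, 0 ≤ C ∧ ∀ B M : ℝ, 1 ≤ B → 1 ≤ M →
      (SetC f m B M).Finite ∧
      ((SetC f m B M).ncard : ℝ) ≤ C * B ^ ε * (B ^ (n + 1) / M) := by
  classical
  have hd : 0 < dg K := Module.finrank_pos
  have hd0 : (0 : ℝ) < (dg K : ℝ) := by exact_mod_cast hd
  have hm0 : (0 : ℝ) < m := by exact_mod_cast hm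
  obtain ⟨j0, hj0⟩ : ∃ j, f j ≠ 0 := by
    by_contra hcon
    push Not at hcon
    refine not_isUnit_zero (hf 0 fun j => ?_)
    rw [hcon j]
  obtain ⟨e, he, he0⟩ := exists_e (f j0) m (hhom j0) hj0
  obtain ⟨c, hc, hmk⟩ := Pool.Agent.Q24.MM.mk K
  obtain ⟨R, hR, hwc⟩ := wc hm f hf hint j0 (hhom j0) e he he0
  obtain ⟨L, hL, Ca, hCa, havg⟩ := avc R hR e he
  obtain ⟨Cw, hCw, hw⟩ := hwc L hL (ε * dg K) (by positivity)
  set c2 : ℝ := 2 * c with hc2
  have hc1 : (1 : ℝ) ≤ c := by exact_mod_cast hc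
  have hc21 : 1 ≤ c2 := by linarith
  refine ⟨Ca * (1 + Cw) * c2 ^ (ε * dg K) * (2 * c2 ^ (dg K * (n + 1))), by positivity,
    fun B M hB hM => ?_⟩
  have hB0 : 0 < B := by linarith
  have hM0 : 0 < M := by linarith
  obtain ⟨τ, hτ⟩ : ∃ τ : ℝ, τ = B ^ ((dg K : ℝ)⁻¹) := ⟨_, rfl⟩
  have hτ1 : 1 ≤ τ := by
    rw [hτ]
    exact Real.one_le_rpow hB (by positivity)
  have hτd : τ ^ dg K = B := by
    rw [hτ, ← Real.rpow_natCast, ← Real.rpow_mul hB0.le, inv_mul_cancel₀ hd0.ne', Real.rpow_one]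
  obtain ⟨b, hb⟩ : ∃ b : ℕ, b = ⌈τ⌉₊ := ⟨_, rfl⟩
  have hb1 : τ ≤ b := by
    rw [hb]
    exact Nat.le_ceil _
  have hb2 : (b : ℝ) < τ + 1 := by
    rw [hb]
    exact Nat.ceil_lt_add_one (by linarith)
  have hb0 : 1 ≤ b := by
    have : (1 : ℝ) ≤ b := le_trans hτ1 hb1
    exact_mod_cast this
  have hBb : B ≤ (b : ℝ) ^ dg K := by
    rw [← hτd]
    gcongr
  set X : ℕ := c * b with hX
  have hX1 : 1 ≤ X := Nat.one_le_iff_ne_zero.2 (by positivity)
  have hXr1 : (1 : ℝ) ≤ X := by exact_mod_cast hX1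
  have hXr0 : (0 : ℝ) < X := by linarith
  have hbX : (b : ℝ) ≤ X := by
    rw [hX]
    push_cast
    exact le_mul_of_one_le_left (Nat.cast_nonneg _) hc1
  have hXτ : (X : ℝ) ≤ c2 * τ := by
    rw [hX, hc2]
    push_cast
    nlinarith
  have hBX : B ≤ (X : ℝ) ^ dg K := hBb.trans (by gcongr)
  -- representatives
  have key : ∀ p : Projectivization K (Fin (n + 1) → K), p ∈ SetC f m B M →
      ∃ t : K, t ≠ 0 ∧ t • p.rep ∈ bx K (n + 1) X := by
    intro p hp
    refine hmk (n + 1) p.rep p.rep_nonzero b hb0 (le_trans (le_of_eq ?_) (le_trans hp.1 hBb))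
    conv_rhs => rw [← p.mk_rep]
    rw [Projectivization.mulHeight_mk]
  choose! t ht0 ht1 using key
  set Zs : Set (Fin (n + 1) → K) := (fun p : Projectivization K (Fin (n + 1) → K) => t p • p.rep) ''
    (SetC f m B M) with hZs
  have hZfin : Zs.Finite := by
    apply (Finset.finite_toSet (bx K (n + 1) X)).subset
    rintro _ ⟨p, hp, rfl⟩
    exact ht1 p hp
  have hinj : Set.InjOn (fun p : Projectivization K (Fin (n + 1) → K) => t p • p.rep)
      (SetC f m B M) := by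
    intro p hp q hq hpq
    have h1 : t p • p.rep = t q • q.rep := hpq
    rw [← p.mk_rep, ← q.mk_rep]
    rw [Projectivization.mk_eq_mk_iff']
    refine ⟨(t p)⁻¹ * t q, ?_⟩
    rw [mul_smul, ← h1, smul_smul, inv_mul_cancel₀ (ht0 p hp), one_smul]
  have hfin : (SetC f m B M).Finite := Set.Finite.of_finite_image hZfin hinj
  refine ⟨hfin, ?_⟩
  by_cases hne : (SetC f m B M).Nonempty
  swap
  · rw [Set.not_nonempty_iff_eq_empty] at hne
    rw [hne, Set.ncard_empty]
    push_cast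
    positivity
  have hMB : M ≤ B := by
    obtain ⟨p, hp⟩ := hne
    have h1 : M ^ m ≤ B ^ m := by
      refine le_trans ?_ hp.2.2
      exact le_mul_of_one_le_left (by positivity) (Height.one_le_mulHeight _)
    exact le_of_pow_le_pow_left₀ (by omega) hB0.le h1
  have hXd1 : (1 : ℝ) ≤ (X : ℝ) ^ dg K := one_le_pow₀ hXr1
  set Bd : ℝ := Cw * (X : ℝ) ^ (ε * dg K) * ((X : ℝ) ^ dg K / M + 1) with hBd
  have h1 := havg X hX1 (Sm f m X M) Bd (by positivity) (fun y hy hyR Z hZ hZb =>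
      hw X hX1 M hM y hy hyR Z hZ hZb) hZfin.toFinset
    (by
      intro x hx
      rw [Set.Finite.mem_toFinset] at hx
      obtain ⟨p, hp, rfl⟩ := hx
      exact ht1 p hp)
    (by
      intro x hx
      rw [Set.Finite.mem_toFinset] at hx
      obtain ⟨p, hp, rfl⟩ := hx
      have hval : ∀ j, MvPolynomial.eval (t p • p.rep) (f j) =
          t p ^ m * MvPolynomial.eval p.rep (f j) := fun j =>
        hom_eval (f j) m (hhom j) (t p) p.rep
      have htm : t p ^ m ≠ 0 := pow_ne_zero _ (ht0 p hp)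
      refine ⟨?_, ?_⟩
      · obtain ⟨j, hj⟩ := hp.2.1
        refine ⟨j, ?_⟩
        show MvPolynomial.eval (t p • p.rep) (f j) ≠ 0
        rw [hval]
        exact mul_ne_zero htm hj
      · have e1 : (fun j => MvPolynomial.eval (t p • p.rep) (f j)) =
            (t p ^ m) • fun j => MvPolynomial.eval p.rep (f j) := by
          funext j
          rw [hval]
          rfl
        show Height.mulHeight (fun j => MvPolynomial.eval (t p • p.rep) (f j)) * M ^ m ≤ _
        rw [e1, Height.mulHeight_smul_eq_mulHeight _ htm]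
        refine hp.2.2.trans ?_
        rw [pow_mul]
        gcongr)
  have hcard : (SetC f m B M).ncard = hZfin.toFinset.card := by
    rw [← Set.ncard_eq_toFinset_card _ hZfin, hZs, Set.InjOn.ncard_image hinj]
  rw [hcard]
  refine h1.trans ?_
  have hτ0 : 0 < τ := by linarith
  have hXd : (X : ℝ) ^ dg K ≤ c2 ^ dg K * B := by
    calc (X : ℝ) ^ dg K ≤ (c2 * τ) ^ dg K := by gcongr
      _ = c2 ^ dg K * B := by rw [mul_pow, hτd]
  have hXε : (X : ℝ) ^ (ε * dg K) ≤ c2 ^ (ε * dg K) * B ^ ε := by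
    calc (X : ℝ) ^ (ε * dg K) ≤ (c2 * τ) ^ (ε * dg K) :=
          Real.rpow_le_rpow hXr0.le hXτ (by positivity)
      _ = c2 ^ (ε * dg K) * B ^ ε := by
          rw [Real.mul_rpow (by linarith) hτ0.le]
          congr 1
          rw [mul_comm ε, Real.rpow_mul hτ0.le, Real.rpow_natCast, hτd]
  have hX1' : (X : ℝ) ^ (dg K * (n + 1)) ≤ c2 ^ (dg K * (n + 1)) * B ^ (n + 1) := by
    rw [pow_mul, pow_mul, ← mul_pow]
    gcongr
  have hX2' : (X : ℝ) ^ (dg K * n) ≤ c2 ^ (dg K * (n + 1)) * (B ^ (n + 1) / M) := by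
    calc (X : ℝ) ^ (dg K * n) ≤ c2 ^ (dg K * n) * B ^ n := by
          rw [pow_mul, pow_mul, ← mul_pow]
          gcongr
      _ ≤ c2 ^ (dg K * (n + 1)) * (B ^ (n + 1) / M) := by
          have h2 : c2 ^ (dg K * n) ≤ c2 ^ (dg K * (n + 1)) :=
            pow_le_pow_right₀ hc21 (Nat.mul_le_mul_left _ (Nat.le_succ n))
          have h3 : B ^ n ≤ B ^ (n + 1) / M := by
            rw [le_div_iff₀ hM0, pow_succ]
            gcongr
          exact mul_le_mul h2 h3 (by positivity) (by positivity)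
  have e1 : (X : ℝ) ^ (dg K * (n + 1)) = (X : ℝ) ^ (dg K * n) * (X : ℝ) ^ dg K := by
    rw [← pow_add]
    congr 1
  have hXε1 : 1 ≤ (X : ℝ) ^ (ε * dg K) := Real.one_le_rpow hXr1 (by positivity)
  have h3 : 1 + Bd ≤ (1 + Cw) * (X : ℝ) ^ (ε * dg K) * ((X : ℝ) ^ dg K / M + 1) := by
    have h4 : 0 ≤ (X : ℝ) ^ dg K / M := by positivity
    have h5 : 1 ≤ (X : ℝ) ^ (ε * dg K) * ((X : ℝ) ^ dg K / M + 1) := by nlinarith
    rw [hBd]
    have h6 : (1 + Cw) * (X : ℝ) ^ (ε * dg K) * ((X : ℝ) ^ dg K / M + 1) =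
      (X : ℝ) ^ (ε * dg K) * ((X : ℝ) ^ dg K / M + 1) +
      Cw * (X : ℝ) ^ (ε * dg K) * ((X : ℝ) ^ dg K / M + 1) := by ring
    rw [h6]
    linarith
  calc Ca * (X : ℝ) ^ (dg K * n) * (1 + Bd)
      ≤ Ca * (X : ℝ) ^ (dg K * n) *
        ((1 + Cw) * (X : ℝ) ^ (ε * dg K) * ((X : ℝ) ^ dg K / M + 1)) := by gcongr
    _ = Ca * (1 + Cw) * (X : ℝ) ^ (ε * dg K) *
        ((X : ℝ) ^ (dg K * (n + 1)) / M + (X : ℝ) ^ (dg K * n)) := by
        rw [e1]
        ring
    _ ≤ Ca * (1 + Cw) * (c2 ^ (ε * dg K) * B ^ ε) *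
        (c2 ^ (dg K * (n + 1)) * B ^ (n + 1) / M + c2 ^ (dg K * (n + 1)) * (B ^ (n + 1) / M)) := by
        gcongr
    _ = _ := by ring

theorem prc {n m : ℕ} (hm : 1 ≤ m) {J : Type} [Fintype J]
    (f : J → MvPolynomial (Fin (n + 1)) K)
    (hf : ∀ g : MvPolynomial (Fin (n + 1)) K, (∀ j, g ∣ f j) → IsUnit g)
    (hhom : ∀ j, (f j).IsHomogeneous m) (ε : ℝ) (hε : 0 < ε) :
    ∃ C : ℝ, 0 ≤ C ∧ ∀ B M : ℝ, 1 ≤ B → 1 ≤ M →
      (SetC f m B M).Finite ∧
      ((SetC f m B M).ncard : ℝ) ≤ C * B ^ ε * (B ^ (n + 1) / M) := by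
  obtain ⟨N, hN0, hN⟩ := denpF f
  have hunit : IsUnit (MvPolynomial.C (σ := Fin (n + 1)) N) := (isUnit_iff_ne_zero.2 hN0).map _
  have h := prc0 hm (fun j => MvPolynomial.C N * f j)
    (fun g hg => hf g fun j => (hunit.dvd_mul_left).1 (hg j))
    (fun j => by
      have := (MvPolynomial.isHomogeneous_C (Fin (n + 1)) N).mul (hhom j)
      rwa [zero_add] at this)
    (fun x hx j => by
      rw [map_mul, MvPolynomial.eval_C]
      exact hN x hx j) ε hε
  have hset : ∀ B M, SetC (fun j => MvPolynomial.C N * f j) m B M = SetC f m B M := by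
    intro B M
    ext p
    unfold SetC
    simp only [Set.mem_setOf_eq, map_mul, MvPolynomial.eval_C]
    have e1 : (fun j => N * MvPolynomial.eval p.rep (f j)) =
        N • fun j => MvPolynomial.eval p.rep (f j) := rfl
    rw [e1, Height.mulHeight_smul_eq_mulHeight _ hN0]
    constructor
    · rintro ⟨h1, ⟨j, hj⟩, h3⟩
      exact ⟨h1, ⟨j, right_ne_zero_of_mul hj⟩, h3⟩
    · rintro ⟨h1, ⟨j, hj⟩, h3⟩
      exact ⟨h1, ⟨j, mul_ne_zero hN0 hj⟩, h3⟩
  simpa only [hset] using h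

end Pool.Agent.H437.WM
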