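import Pool.Agent.H437.WM.Alg

/-!
Weak Manin near the pullback of `O(1)`: sizes of values of polynomials, restriction of a form to a
line.
-/

set_option autoImplicit false

namespace Pool.Agent.H437.WM

open Finset

section size

variable {K : Type} [Field K] [NumberField K] {σ : Type}

/-- values of a polynomial are polynomially bounded -/
theorem size (f : MvPolynomial σ K) : ∃ C D : ℕ, 1 ≤ C ∧ ∀ X : ℕ, 1 ≤ X → ∀ y : σ → K,
    (∀ i, ∀ φ : K →+* ℂ, ‖φ (y i)‖ ≤ X) → ∀ φ : K →+* ℂ,
      ‖φ (MvPolynomial.eval y f)‖ ≤ C * (X : ℝ) ^ D := by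
  classical
  induction f using MvPolynomial.induction_on with
  | C a =>
    obtain ⟨C, hC⟩ := exists_nat_ge (∑ φ : K →+* ℂ, ‖φ a‖)
    refine ⟨C + 1, 0, by omega, fun X _ y _ φ => ?_⟩
    rw [MvPolynomial.eval_C, pow_zero, mul_one]
    have h1 : ‖φ a‖ ≤ ∑ φ : K →+* ℂ, ‖φ a‖ :=
      Finset.single_le_sum (f := fun φ : K →+* ℂ => ‖φ a‖) (fun _ _ => norm_nonneg _)
        (Finset.mem_univ φ)
    push_cast
    linarith
  | add p q hp hq =>
    obtain ⟨C, D, h0, h1⟩ := hp
    obtain ⟨C', D', g0, g1⟩ := hq
    refine ⟨C + C', max D D', by omega, fun X hX y hy φ => ?_⟩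
    have hX1 : (1 : ℝ) ≤ X := by exact_mod_cast hX
    rw [map_add, map_add]
    refine (norm_add_le _ _).trans ?_
    have e1 := h1 X hX y hy φ
    have e2 := g1 X hX y hy φ
    have e3 : (X : ℝ) ^ D ≤ (X : ℝ) ^ max D D' := pow_le_pow_right₀ hX1 (le_max_left _ _)
    have e4 : (X : ℝ) ^ D' ≤ (X : ℝ) ^ max D D' := pow_le_pow_right₀ hX1 (le_max_right _ _)
    have c1 : (0 : ℝ) ≤ C := Nat.cast_nonneg _
    have c2 : (0 : ℝ) ≤ C' := Nat.cast_nonneg _
    push_cast
    nlinarith [mul_le_mul_of_nonneg_left e3 c1, mul_le_mul_of_nonneg_left e4 c2]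
  | mul_X p i hp =>
    obtain ⟨C, D, h0, h1⟩ := hp
    refine ⟨C, D + 1, h0, fun X hX y hy φ => ?_⟩
    rw [map_mul, MvPolynomial.eval_X, map_mul, norm_mul, pow_succ, ← mul_assoc]
    exact mul_le_mul (h1 X hX y hy φ) (hy i φ) (norm_nonneg _) (by positivity)

end size

section line

variable {K : Type} [Field K] {σ : Type}

/-- the restriction of `f` to the line `y + t e` -/
noncomputable def ln (e y : σ → K) : MvPolynomial σ K →+* Polynomial K :=
  MvPolynomial.eval₂Hom Polynomial.C fun i => Polynomial.C (y i) + Polynomial.X * Polynomial.C (e i)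

theorem ln_eval (e y : σ → K) (t : K) (f : MvPolynomial σ K) :
    (ln e y f).eval t = MvPolynomial.eval (fun i => y i + t * e i) f := by
  have h : (Polynomial.evalRingHom t).comp (ln e y) = MvPolynomial.eval (fun i => y i + t * e i) := by
    apply MvPolynomial.ringHom_ext
    · intro a
      rw [RingHom.comp_apply, MvPolynomial.eval_C]
      unfold ln
      rw [MvPolynomial.coe_eval₂Hom, MvPolynomial.eval₂_C, Polynomial.coe_evalRingHom,
        Polynomial.eval_C]
    · intro i
      rw [RingHom.comp_apply, MvPolynomial.eval_X]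
      unfold ln
      rw [MvPolynomial.coe_eval₂Hom, MvPolynomial.eval₂_X, Polynomial.coe_evalRingHom,
        Polynomial.eval_add, Polynomial.eval_mul, Polynomial.eval_C, Polynomial.eval_X,
        Polynomial.eval_C]
  exact congrArg (fun g : _ →+* _ => g f) h

theorem tm {M : Type} [CommMonoid M] (s : σ →₀ ℕ) (g : σ → M) :
    ((Finsupp.toMultiset s).map g).prod = s.prod fun i n => g i ^ n := by
  classical
  rw [Finsupp.toMultiset_map, Finsupp.prod_toMultiset, Finsupp.prod_mapDomain_index]
  · intro b
    exact pow_zero _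
  · intro b m n
    exact pow_add _ _ _

theorem ln_monomial (e y : σ → K) (s : σ →₀ ℕ) (c : K) :
    (ln e y (MvPolynomial.monomial s c)).natDegree ≤ s.degree ∧
      (ln e y (MvPolynomial.monomial s c)).coeff s.degree =
        MvPolynomial.eval e (MvPolynomial.monomial s c) := by
  classical
  have h1 : ln e y (MvPolynomial.monomial s c) = Polynomial.C c *
      ((Finsupp.toMultiset s).map fun i => Polynomial.C (y i) + Polynomial.X * Polynomial.C (e i)).prod := by
    unfold ln
    rw [MvPolynomial.coe_eval₂Hom, MvPolynomial.eval₂_monomial, tm]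
  have hl : ∀ p ∈ (Finsupp.toMultiset s).map
      (fun i => Polynomial.C (y i) + Polynomial.X * Polynomial.C (e i)), p.natDegree ≤ 1 := by
    intro p hp
    rw [Multiset.mem_map] at hp
    obtain ⟨i, -, rfl⟩ := hp
    compute_degree
  have hc : Multiset.card ((Finsupp.toMultiset s).map
      (fun i => Polynomial.C (y i) + Polynomial.X * Polynomial.C (e i))) = s.degree := by
    rw [Multiset.card_map, Finsupp.card_toMultiset, Finsupp.degree]
    rfl
  have h2 := Polynomial.coeff_multiset_prod_of_natDegree_le _ 1 hl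
  have h3 := Polynomial.natDegree_multiset_prod_le ((Finsupp.toMultiset s).map
      (fun i => Polynomial.C (y i) + Polynomial.X * Polynomial.C (e i)))
  constructor
  · rw [h1]
    refine (Polynomial.natDegree_C_mul_le _ _).trans (h3.trans ?_)
    refine (Multiset.sum_le_card_nsmul _ 1 ?_).trans ?_
    · intro x hx
      rw [Multiset.mem_map] at hx
      obtain ⟨p, hp, rfl⟩ := hx
      exact hl p hp
    · rw [Multiset.card_map, hc]
      simp
  · rw [h1, Polynomial.coeff_C_mul]
    rw [hc, mul_one] at h2
    rw [h2, Multiset.map_map, MvPolynomial.eval_monomial, ← tm]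
    congr 2
    apply Multiset.map_congr rfl
    intro i _
    simp [Polynomial.coeff_X]

theorem ln_hom (e y : σ → K) (f : MvPolynomial σ K) (m : ℕ) (hf : f.IsHomogeneous m) :
    (ln e y f).natDegree ≤ m ∧ (ln e y f).coeff m = MvPolynomial.eval e f := by
  classical
  have hs : ∀ s ∈ f.support, s.degree = m := by
    intro s hs
    have := hf (MvPolynomial.mem_support_iff.1 hs)
    rw [← this, Finsupp.degree_eq_weight_one]
    rfl
  have h1 : ln e y f = ∑ s ∈ f.support, ln e y (MvPolynomial.monomial s (f.coeff s)) := by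
    conv_lhs => rw [f.as_sum]
    rw [map_sum]
  constructor
  · rw [h1]
    refine Polynomial.natDegree_sum_le_of_forall_le _ _ fun s hs' => ?_
    exact ((ln_monomial e y s _).1).trans (hs s hs').le
  · rw [h1, Polynomial.finsetSum_coeff]
    conv_rhs => rw [f.as_sum]
    rw [map_sum]
    refine Finset.sum_congr rfl fun s hs' => ?_
    rw [← (ln_monomial e y s _).2, hs s hs']

end line

end Pool.Agent.H437.WM
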