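import Pool.Agent.H437.WM.Size
import Pool.Agent.H437.WM.Linc

/-!
Weak Manin near the pullback of `O(1)`: the points of small height on a line.
-/

set_option autoImplicit false

namespace Pool.Agent.H437.WM

open Finset NumberField Module
open Pool.Agent.Q35.MM

section pre

variable {K : Type} [Field K] [NumberField K]

/-- products over the infinite places and over the embeddings -/
theorem prod_mk (F : InfinitePlace K → ℝ) :
    ∏ w : InfinitePlace K, F w ^ w.mult = ∏ φ : K →+* ℂ, F (InfinitePlace.mk φ) := by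
  classical
  rw [← Finset.prod_fiberwise Finset.univ InfinitePlace.mk
    (fun φ : K →+* ℂ => F (InfinitePlace.mk φ))]
  refine Finset.prod_congr rfl fun w _ => ?_
  have h : ∀ φ ∈ ({φ | InfinitePlace.mk φ = w} : Finset (K →+* ℂ)), F (InfinitePlace.mk φ) = F w := by
    intro φ hφ
    rw [(Finset.mem_filter.mp hφ).2]
  rw [Finset.prod_congr rfl h, Finset.prod_const, InfinitePlace.card_filter_mk_eq]

/-- the height of a tuple of integers -/
theorem height_int {J : Type} [Fintype J] (z : J → 𝓞 K) (hz : z ≠ 0) :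
    ∏ φ : K →+* ℂ, (⨆ j, ‖φ (z j : K)‖) =
      Height.mulHeight (fun j => (z j : K)) * Ideal.absNorm (Ideal.span (Set.range z)) := by
  obtain ⟨j0, hj0⟩ := Function.ne_iff.mp hz
  have hyK0 : (fun i => (z i : K)) ≠ 0 :=
    Function.ne_iff.mpr ⟨j0, RingOfIntegers.coe_ne_zero_iff.2 hj0⟩
  have hN := absNorm_mul_finprod_finitePlace_eq_one hz
  rw [NumberField.mulHeight_eq hyK0, mul_assoc, mul_comm (∏ᶠ v : FinitePlace K, _), hN, mul_one,
    prod_mk (fun v => ⨆ i, v (z i : K))]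
  rfl

end pre

variable {K : Type} [Field K] [NumberField K]

/-- the height of the values of the forms at `x` is small -/
def Sm {σ J : Type} [Fintype J] (f : J → MvPolynomial σ K) (m X : ℕ) (M : ℝ) (x : σ → K) : Prop :=
  (∃ j, MvPolynomial.eval x (f j) ≠ 0) ∧
    Height.mulHeight (fun j => MvPolynomial.eval x (f j)) * M ^ m ≤ (X : ℝ) ^ (dg K * m)

theorem log_count (d : ℕ) (θ : ℝ) (hθ : 0 < θ) : ∃ c : ℝ, 0 < c ∧ ∀ W : ℝ, 1 ≤ W →
    (2 * (⌈(d : ℝ) * Real.logb 2 W⌉₊ : ℝ) + 1) ≤ c * W ^ θ := by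
  have hlog2 : 0 < Real.log 2 := Real.log_pos (by norm_num)
  refine ⟨2 * (d * (1 / θ / Real.log 2)) + 3, by positivity, fun W hW => ?_⟩
  have hW0 : 0 < W := by linarith
  have h1 : Real.log W ≤ W ^ θ / θ := Real.log_le_rpow_div hW0.le hθ
  have h2 : Real.logb 2 W ≤ 1 / θ / Real.log 2 * W ^ θ := by
    rw [Real.logb, div_le_iff₀ hlog2]
    refine h1.trans (le_of_eq ?_)
    field_simp
  have h0 : 0 ≤ Real.logb 2 W := Real.logb_nonneg (by norm_num) hW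
  have h3 : (⌈(d : ℝ) * Real.logb 2 W⌉₊ : ℝ) ≤ (d : ℝ) * Real.logb 2 W + 1 :=
    (Nat.ceil_lt_add_one (by positivity)).le
  have h4 : 1 ≤ W ^ θ := Real.one_le_rpow hW hθ.le
  have h5 : (d : ℝ) * Real.logb 2 W ≤ d * (1 / θ / Real.log 2 * W ^ θ) :=
    mul_le_mul_of_nonneg_left h2 (Nat.cast_nonneg _)
  calc 2 * (⌈(d : ℝ) * Real.logb 2 W⌉₊ : ℝ) + 1 ≤ 2 * (d * (1 / θ / Real.log 2 * W ^ θ) + 1) + 1 := by
        linarith
    _ ≤ _ := by
        have : (2 * ((d : ℝ) * (1 / θ / Real.log 2)) + 3) * W ^ θ =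
          2 * (d * (1 / θ / Real.log 2 * W ^ θ)) + 3 * W ^ θ := by ring
        rw [this]
        linarith

theorem wc {n m : ℕ} (hm : 1 ≤ m) {J : Type} [Fintype J] (f : J → MvPolynomial (Fin n) K)
    (hf : ∀ g : MvPolynomial (Fin n) K, (∀ j, g ∣ f j) → IsUnit g)
    (hint : ∀ x : Fin n → K, (∀ i, IsIntegral ℤ (x i)) → ∀ j, IsIntegral ℤ (MvPolynomial.eval x (f j)))
    (j0 : J) (hj0 : (f j0).IsHomogeneous m) (e : Fin n → K) (he : ∀ i, IsIntegral ℤ (e i))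
    (he0 : MvPolynomial.eval e (f j0) ≠ 0) :
    ∃ R : MvPolynomial (Fin n) K, R ≠ 0 ∧ ∀ L : ℕ, 1 ≤ L → ∀ ε : ℝ, 0 < ε →
      ∃ C : ℝ, 0 ≤ C ∧ ∀ X : ℕ, 1 ≤ X → ∀ M : ℝ, 1 ≤ M →
      ∀ y ∈ bx K n (L * X), MvPolynomial.eval y R ≠ 0 → ∀ Z : Finset K, (∀ t ∈ Z, t ∈ S1 K X) →
        (∀ t ∈ Z, Sm f m X M (fun i => y i + t * e i)) →
        (Z.card : ℝ) ≤ C * (X : ℝ) ^ ε * ((X : ℝ) ^ dg K / M + 1) := by
  classical
  obtain ⟨R, hR, hRint, hcomb⟩ := alg f hf e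
  obtain ⟨CR, D, hCR, hsize⟩ := size R
  choose Cf Df hCf hsf using fun j => size (f j)
  choose E0 hE01 hE0 using fun i => Pool.Agent.Q279.MC.Bas79.exists_S1 (he i)
  obtain ⟨E, hE⟩ : ∃ E : ℕ, ∀ i, e i ∈ S1 K E :=
    ⟨∑ i, E0 i, fun i => Pool.Agent.Q279.MC.Bas79.S1_mono
      (Finset.single_le_sum (fun _ _ => Nat.zero_le _) (Finset.mem_univ i)) (hE0 i)⟩
  refine ⟨R, hR, fun L hL ε hε => ?_⟩
  have hd : 0 < dg K := Module.finrank_pos
  have hm0 : (0 : ℝ) < m := by exact_mod_cast hm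
  set η : ℝ := ε / 3 / (D * dg K + 1) with hη
  have hη0 : 0 < η := by positivity
  obtain ⟨Cd, hCd, hdiv⟩ := divr K η hη0
  obtain ⟨Cl, hCl, hlinc⟩ := linc m hm (MvPolynomial.eval e (f j0)) he0 (hint e he j0) η hη0
  set G : ℝ := (((CR : ℝ) * (L : ℝ) ^ D) ^ dg K) ^ η with hG
  have hG0 : 0 ≤ G := by positivity
  set CW : ℝ := (∑ j, (Cf j : ℝ)) * ((L : ℝ) + E) ^ (∑ j, Df j) + 1 with hCW
  have hCW1 : 1 ≤ CW := by
    have : 0 ≤ (∑ j, (Cf j : ℝ)) * ((L : ℝ) + E) ^ (∑ j, Df j) := by positivity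
    linarith
  set DW : ℕ := ∑ j, Df j with hDW
  set θ : ℝ := ε / 3 / (DW * dg K + 1) with hθ
  have hθ0 : 0 < θ := by positivity
  obtain ⟨cl, hcl, hlog⟩ := log_count (dg K) θ hθ0
  set C3 : ℝ := cl ^ dg K * CW ^ (θ * dg K) with hC3
  refine ⟨(Cd * G) * C3 * (Cl * G * 2 ^ dg K), by positivity, fun X hX M hM y hy hyR Z hZ hbad => ?_⟩
  have hX1 : (1 : ℝ) ≤ X := by exact_mod_cast hX
  have hX0 : (0 : ℝ) < X := by linarith
  have hM0 : 0 < M := by linarith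
  have hL1 : (1 : ℝ) ≤ L := by exact_mod_cast hL
  rw [mem_bx] at hy
  have hyint : ∀ i, IsIntegral ℤ (y i) := fun i => (hy i).1
  set p : Polynomial K := ln e y (f j0) with hp
  obtain ⟨hpd, hpc⟩ := ln_hom e y (f j0) m hj0
  have hpe : ∀ t, p.eval t = MvPolynomial.eval (fun i => y i + t * e i) (f j0) :=
    fun t => ln_eval e y t (f j0)
  -- the values
  have hxt : ∀ t ∈ Z, ∀ i, y i + t * e i ∈ S1 K ((L + E) * X) := by
    intro t ht i
    have h1 := Pool.Agent.Q279.MC.Bas79.S1_add (hy i)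
      (Pool.Agent.Q279.MC.Bas79.S1_mul (hZ t ht) (hE i))
    have e1 : L * X + X * E = (L + E) * X := by ring
    rwa [e1] at h1
  have hzex : ∀ t ∈ Z, ∀ j, ∃ z : 𝓞 K, (z : K) = MvPolynomial.eval (fun i => y i + t * e i) (f j) :=
    fun t ht j => ⟨⟨_, hint _ (fun i => (hxt t ht i).1) j⟩, rfl⟩
  choose! z hz using hzex
  -- the divisors
  set r : 𝓞 K := ⟨MvPolynomial.eval y R, hRint y hyint⟩ with hr
  have hr0 : r ≠ 0 := by
    intro h
    exact hyR (congrArg (fun z : 𝓞 K => (z : K)) h)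
  have hspan : (Ideal.span {r} : Ideal (𝓞 K)) ≠ ⊥ := by
    rw [Ne, Ideal.span_singleton_eq_bot]
    exact hr0
  obtain ⟨hfin, hcard⟩ := hdiv (Ideal.span {r}) hspan
  set Dv : Finset (Ideal (𝓞 K)) := hfin.toFinset with hDv
  have hNr : (Ideal.absNorm (Ideal.span {r}) : ℝ) ^ η ≤ G * (X : ℝ) ^ (ε / 3) := by
    have h2 : (Ideal.absNorm (Ideal.span {r}) : ℝ) ≤ ((CR : ℝ) * (L : ℝ) ^ D) ^ dg K *
        (X : ℝ) ^ (D * dg K) := by
      have h3 : (Ideal.absNorm (Ideal.span {r}) : ℝ) ≤ ∏ φ : K →+* ℂ, ‖φ (r : K)‖ :=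
        norm_ge _ r (Ideal.mem_span_singleton_self r) hr0
      refine h3.trans ?_
      have h4 : ∀ φ : K →+* ℂ, ‖φ (r : K)‖ ≤ CR * ((L * X : ℕ) : ℝ) ^ D := by
        intro φ
        exact hsize (L * X) (Nat.one_le_iff_ne_zero.2 (by positivity)) y (fun i φ => (hy i).2 φ) φ
      have h5 : ∏ φ : K →+* ℂ, ‖φ (r : K)‖ ≤ ∏ φ : K →+* ℂ, (CR * ((L * X : ℕ) : ℝ) ^ D) :=
        Finset.prod_le_prod (fun φ _ => norm_nonneg _) fun φ _ => h4 φ
      refine h5.trans (le_of_eq ?_)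
      rw [Finset.prod_const, Finset.card_univ, card_emb]
      push_cast
      rw [mul_pow (L : ℝ) (X : ℝ) D, ← mul_assoc, mul_pow _ ((X : ℝ) ^ D), ← pow_mul]
    refine (Real.rpow_le_rpow (Nat.cast_nonneg _) h2 hη0.le).trans ?_
    rw [Real.mul_rpow (by positivity) (by positivity), hG]
    refine mul_le_mul_of_nonneg_left ?_ (by positivity)
    rw [← Real.rpow_natCast, ← Real.rpow_mul hX0.le]
    apply Real.rpow_le_rpow_of_exponent_le hX1
    rw [hη]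
    push_cast
    rw [mul_div_assoc', div_le_iff₀ (by positivity)]
    nlinarith
  have hDvc : (Dv.card : ℝ) ≤ Cd * G * (X : ℝ) ^ (ε / 3) := by
    have h1 : (Dv.card : ℝ) = (Set.ncard {J : Ideal (𝓞 K) | J ∣ Ideal.span {r}} : ℝ) := by
      rw [Set.ncard_eq_toFinset_card _ hfin]
    rw [h1]
    calc (Set.ncard {J : Ideal (𝓞 K) | J ∣ Ideal.span {r}} : ℝ) ≤
          Cd * (Ideal.absNorm (Ideal.span {r}) : ℝ) ^ η := hcard
      _ ≤ Cd * (G * (X : ℝ) ^ (ε / 3)) := mul_le_mul_of_nonneg_left hNr hCd.le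
      _ = _ := by ring
  -- the ideals of the values
  set I : K → Ideal (𝓞 K) := fun t => Ideal.span (Set.range (z t)) with hI
  have hIdv : ∀ t ∈ Z, I t ∣ Ideal.span {r} := by
    intro t ht
    rw [Ideal.dvd_iff_le, Ideal.span_singleton_le_iff_mem]
    obtain ⟨a, ha, haR⟩ := hcomb y t hyint (hZ t ht).1
    have hw : ∀ j, ∃ w : 𝓞 K, (w : K) = a j := fun j => ⟨⟨a j, ha j⟩, rfl⟩
    choose w hw using hw
    have h1 : r = ∑ j, w j * z t j := by
      apply NumberField.RingOfIntegers.ext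
      show MvPolynomial.eval y R = algebraMap (𝓞 K) K (∑ j, w j * z t j)
      rw [haR, map_sum]
      refine Finset.sum_congr rfl fun j _ => ?_
      rw [map_mul, ← hz t ht j, ← hw j]
    rw [h1]
    exact (I t).sum_mem fun j _ => (I t).mul_mem_left _ (Ideal.subset_span ⟨j, rfl⟩)
  have hIne : ∀ t ∈ Z, I t ≠ ⊥ := by
    intro t ht h
    have h1 := hIdv t ht
    rw [h, ← Ideal.zero_eq_bot, zero_dvd_iff] at h1
    exact hspan h1
  have hIN : ∀ t ∈ Z, (Ideal.absNorm (I t) : ℝ) ^ η ≤ G * (X : ℝ) ^ (ε / 3) := by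
    intro t ht
    refine le_trans ?_ hNr
    apply Real.rpow_le_rpow (Nat.cast_nonneg _) _ hη0.le
    have h1 := map_dvd (Ideal.absNorm (S := 𝓞 K)) (hIdv t ht)
    have h3 : Ideal.absNorm (Ideal.span {r} : Ideal (𝓞 K)) ≠ 0 := by
      rwa [Ne, Ideal.absNorm_eq_zero_iff]
    exact_mod_cast Nat.le_of_dvd (Nat.pos_of_ne_zero h3) h1
  -- the sizes
  set W : ℝ := CW * (X : ℝ) ^ DW with hW
  have hW1 : 1 ≤ W := by
    have : (1 : ℝ) ≤ (X : ℝ) ^ DW := one_le_pow₀ hX1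
    nlinarith
  have hW0 : 0 < W := by linarith
  have hup : ∀ t ∈ Z, ∀ j, ∀ φ : K →+* ℂ, ‖φ (z t j : K)‖ ≤ W := by
    intro t ht j φ
    rw [hz t ht j]
    have hLX : 1 ≤ (L + E) * X := Nat.one_le_iff_ne_zero.2 (by positivity)
    have h1 := hsf j ((L + E) * X) hLX _ (fun i φ => (hxt t ht i).2 φ) φ
    refine h1.trans ?_
    push_cast
    have h2 : Df j ≤ DW := Finset.single_le_sum (f := Df) (fun _ _ => Nat.zero_le _) (Finset.mem_univ j)
    have h3 : (Cf j : ℝ) ≤ ∑ j, (Cf j : ℝ) :=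
      Finset.single_le_sum (f := fun j => (Cf j : ℝ)) (fun _ _ => Nat.cast_nonneg _) (Finset.mem_univ j)
    have h4 : (1 : ℝ) ≤ ((L : ℝ) + E) * X := by exact_mod_cast hLX
    calc (Cf j : ℝ) * (((L : ℝ) + E) * X) ^ Df j ≤ (∑ j, (Cf j : ℝ)) * (((L : ℝ) + E) * X) ^ DW :=
          mul_le_mul h3 (pow_le_pow_right₀ h4 h2) (by positivity) (by positivity)
      _ = (∑ j, (Cf j : ℝ)) * ((L : ℝ) + E) ^ DW * (X : ℝ) ^ DW := by rw [mul_pow]; ring
      _ ≤ _ := by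
          rw [hW, hCW]
          have : (0 : ℝ) ≤ (X : ℝ) ^ DW := by positivity
          nlinarith
  set s : K → (K →+* ℂ) → ℝ := fun t φ => ⨆ j, ‖φ (z t j : K)‖ with hs
  have hneJ : Nonempty J := ⟨j0⟩
  have hsle : ∀ t j (φ : K →+* ℂ), ‖φ (z t j : K)‖ ≤ s t φ := fun t j φ =>
    le_ciSup (f := fun j => ‖φ (z t j : K)‖) (Set.finite_range _).bddAbove j
  have hsW : ∀ t ∈ Z, ∀ φ, s t φ ≤ W := fun t ht φ => ciSup_le fun j => hup t ht j φ
  have hzne : ∀ t ∈ Z, z t ≠ 0 := by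
    intro t ht h
    obtain ⟨j, hj⟩ := (hbad t ht).1
    apply hj
    rw [← hz t ht j, h]
    rfl
  have hslow : ∀ t ∈ Z, ∀ φ, (W ^ dg K)⁻¹ ≤ s t φ := by
    intro t ht φ
    obtain ⟨j, hj⟩ := Function.ne_iff.mp (hzne t ht)
    have hj' : (z t j : K) ≠ 0 := RingOfIntegers.coe_ne_zero_iff.2 hj
    refine le_trans ?_ (hsle t j φ)
    have h1 := one_le_prod (RingOfIntegers.isIntegral_coe (z t j)) hj'
    rw [← Finset.mul_prod_erase Finset.univ _ (Finset.mem_univ φ)] at h1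
    have h2 : ∏ ψ ∈ (Finset.univ : Finset (K →+* ℂ)).erase φ, ‖ψ (z t j : K)‖ ≤ W ^ dg K := by
      calc ∏ ψ ∈ (Finset.univ : Finset (K →+* ℂ)).erase φ, ‖ψ (z t j : K)‖ ≤
            ∏ ψ ∈ (Finset.univ : Finset (K →+* ℂ)).erase φ, W :=
            Finset.prod_le_prod (fun _ _ => norm_nonneg _) fun ψ _ => hup t ht j ψ
        _ = W ^ (dg K - 1) := by
            rw [Finset.prod_const, Finset.card_erase_of_mem (Finset.mem_univ _), Finset.card_univ,
              card_emb]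
        _ ≤ _ := pow_le_pow_right₀ hW1 (Nat.sub_le _ _)
    rw [inv_le_iff_one_le_mul₀ (by positivity)]
    exact h1.trans (mul_le_mul_of_nonneg_left h2 (norm_nonneg _))
  have hs0 : ∀ t ∈ Z, ∀ φ, 0 < s t φ := fun t ht φ =>
    lt_of_lt_of_le (by positivity) (hslow t ht φ)
  -- the dyadic exponents
  set b : K → (K →+* ℂ) → ℤ := fun t φ => ⌈Real.logb 2 (s t φ)⌉ with hb
  have hb1 : ∀ t ∈ Z, ∀ φ, s t φ ≤ (2 : ℝ) ^ (b t φ : ℝ) := by
    intro t ht φ
    calc s t φ = (2 : ℝ) ^ (Real.logb 2 (s t φ)) :=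
          (Real.rpow_logb (by norm_num) (by norm_num) (hs0 t ht φ)).symm
      _ ≤ _ := Real.rpow_le_rpow_of_exponent_le (by norm_num) (Int.le_ceil _)
  have hb2 : ∀ t ∈ Z, ∀ φ, (2 : ℝ) ^ (b t φ : ℝ) ≤ 2 * s t φ := by
    intro t ht φ
    calc (2 : ℝ) ^ (b t φ : ℝ) ≤ (2 : ℝ) ^ (Real.logb 2 (s t φ) + 1) :=
          Real.rpow_le_rpow_of_exponent_le (by norm_num) (Int.ceil_lt_add_one _).le
      _ = 2 * s t φ := by
          rw [Real.rpow_add (by norm_num), Real.rpow_one,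
            Real.rpow_logb (by norm_num) (by norm_num) (hs0 t ht φ)]
          ring
  set N0 : ℕ := ⌈(dg K : ℝ) * Real.logb 2 W⌉₊ with hN0
  have hlW : 0 ≤ Real.logb 2 W := Real.logb_nonneg (by norm_num) hW1
  have hd1 : (1 : ℝ) ≤ dg K := by exact_mod_cast hd
  have hbr : ∀ t ∈ Z, ∀ φ, b t φ ∈ Finset.Icc (-(N0 : ℤ)) N0 := by
    intro t ht φ
    rw [Finset.mem_Icc]
    have hN1 : (dg K : ℝ) * Real.logb 2 W ≤ N0 := Nat.le_ceil _
    constructor
    · have h1 : -((N0 : ℤ) : ℝ) ≤ Real.logb 2 (s t φ) := by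
        have h2 : Real.logb 2 ((W ^ dg K)⁻¹) ≤ Real.logb 2 (s t φ) :=
          Real.logb_le_logb_of_le (by norm_num) (by positivity) (hslow t ht φ)
        rw [Real.logb_inv, Real.logb_pow] at h2
        push_cast
        linarith
      have h3 : -((N0 : ℤ) : ℝ) ≤ (b t φ : ℝ) := h1.trans (Int.le_ceil _)
      exact_mod_cast h3
    · rw [hb]
      simp only
      rw [Int.ceil_le]
      have h2 : Real.logb 2 (s t φ) ≤ Real.logb 2 W :=
        Real.logb_le_logb_of_le (by norm_num) (hs0 t ht φ) (hsW t ht φ)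
      push_cast
      nlinarith
  set key : K → Ideal (𝓞 K) × ((K →+* ℂ) → ℤ) := fun t => (I t, b t) with hkey
  have himg : Z.image key ⊆ Dv ×ˢ Fintype.piFinset fun _ : K →+* ℂ => Finset.Icc (-(N0 : ℤ)) N0 := by
    intro q hq
    rw [mem_image] at hq
    obtain ⟨t, ht, rfl⟩ := hq
    rw [Finset.mem_product, Fintype.mem_piFinset]
    refine ⟨?_, hbr t ht⟩
    rw [hDv, Set.Finite.mem_toFinset]
    exact hIdv t ht
  have hicard : ((Z.image key).card : ℝ) ≤ (Cd * G * (X : ℝ) ^ (ε / 3)) * (C3 * (X : ℝ) ^ (ε / 3)) := by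
    have h1 : ((Z.image key).card : ℝ) ≤ (Dv.card : ℝ) * (2 * (N0 : ℝ) + 1) ^ dg K := by
      have h2 := card_le_card himg
      rw [Finset.card_product, Fintype.card_piFinset] at h2
      simp only [Int.card_Icc, Finset.prod_const, Finset.card_univ] at h2
      rw [card_emb] at h2
      have e1 : ((N0 : ℤ) + 1 - -(N0 : ℤ)).toNat = 2 * N0 + 1 := by omega
      rw [e1] at h2
      exact_mod_cast h2
    refine h1.trans (mul_le_mul hDvc ?_ (by positivity) (by positivity))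
    have h3 : (2 * (N0 : ℝ) + 1) ≤ cl * W ^ θ := hlog W hW1
    calc (2 * (N0 : ℝ) + 1) ^ dg K ≤ (cl * W ^ θ) ^ dg K := by gcongr
      _ = cl ^ dg K * W ^ (θ * dg K) := by
          rw [mul_pow, ← Real.rpow_natCast (W ^ θ), ← Real.rpow_mul hW0.le]
      _ = cl ^ dg K * (CW ^ (θ * dg K) * (X : ℝ) ^ ((DW : ℝ) * (θ * dg K))) := by
          rw [hW, Real.mul_rpow (by positivity) (by positivity), ← Real.rpow_natCast (X : ℝ) DW,
            ← Real.rpow_mul hX0.le]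
      _ ≤ cl ^ dg K * (CW ^ (θ * dg K) * (X : ℝ) ^ (ε / 3)) := by
          have : (DW : ℝ) * (θ * dg K) ≤ ε / 3 := by
            rw [hθ, div_mul_eq_mul_div, mul_div_assoc', div_le_iff₀ (by positivity)]
            nlinarith
          have h4 : (X : ℝ) ^ ((DW : ℝ) * (θ * dg K)) ≤ (X : ℝ) ^ (ε / 3) :=
            Real.rpow_le_rpow_of_exponent_le hX1 this
          gcongr
      _ = _ := by rw [hC3]; ring
  -- the fibres
  set Bd : ℝ := Cl * (G * (X : ℝ) ^ (ε / 3)) * (2 ^ dg K * ((X : ℝ) ^ dg K / M + 1)) with hBd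
  have hBd0 : 0 ≤ Bd := by positivity
  have hfib := Finset.card_le_mul_card_image (f := key) Z ⌊Bd⌋₊ (by
    intro q hq
    rw [mem_image] at hq
    obtain ⟨t0, ht0, rfl⟩ := hq
    apply Nat.le_floor
    have hI0 := hIne t0 ht0
    have hNI : 0 < (Ideal.absNorm (I t0) : ℝ) := by
      have : Ideal.absNorm (I t0) ≠ 0 := by rwa [Ne, Ideal.absNorm_eq_zero_iff]
      exact_mod_cast Nat.pos_of_ne_zero this
    have h1 := hlinc p hpd hpc (I t0) hI0 (fun φ => ((2 : ℝ) ^ (b t0 φ : ℝ)) ^ (1 / (m : ℝ)))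
      (fun φ => by positivity) (Z.filter fun t => key t = key t0)
      (fun t ht => (hZ t (mem_filter.1 ht).1).1)
      (by
        intro t ht
        rw [mem_filter] at ht
        obtain ⟨ht, hk⟩ := ht
        have hk1 : I t = I t0 := congrArg Prod.fst hk
        refine ⟨z t j0, ?_, ?_⟩
        · rw [← hk1]
          exact Ideal.subset_span ⟨j0, rfl⟩
        · rw [hz t ht j0, hpe])
      (by
        intro t ht φ
        rw [mem_filter] at ht
        obtain ⟨ht, hk⟩ := ht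
        have hk2 : b t = b t0 := congrArg Prod.snd hk
        have e1 : (((2 : ℝ) ^ (b t0 φ : ℝ)) ^ (1 / (m : ℝ))) ^ m = (2 : ℝ) ^ (b t0 φ : ℝ) := by
          rw [← Real.rpow_natCast, ← Real.rpow_mul (by positivity), one_div,
            inv_mul_cancel₀ hm0.ne', Real.rpow_one]
        rw [e1, ← hk2, hpe, ← hz t ht j0]
        exact (hsle t j0 φ).trans (hb1 t ht φ))
    refine h1.trans ?_
    have h2 := hIN t0 ht0
    have h3 : (∏ φ : K →+* ℂ, ((2 : ℝ) ^ (b t0 φ : ℝ)) ^ (1 / (m : ℝ))) *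
        (Ideal.absNorm (I t0) : ℝ) ^ (-(1 / (m : ℝ))) ≤ 2 ^ dg K * ((X : ℝ) ^ dg K / M) := by
      have e1 : (∏ φ : K →+* ℂ, ((2 : ℝ) ^ (b t0 φ : ℝ)) ^ (1 / (m : ℝ))) =
          (∏ φ : K →+* ℂ, ((2 : ℝ) ^ (b t0 φ : ℝ))) ^ (1 / (m : ℝ)) :=
        Real.finset_prod_rpow _ _ (fun φ _ => by positivity) _
      have e2 : ∏ φ : K →+* ℂ, ((2 : ℝ) ^ (b t0 φ : ℝ)) ≤ 2 ^ dg K * ∏ φ : K →+* ℂ, s t0 φ := by
        calc ∏ φ : K →+* ℂ, ((2 : ℝ) ^ (b t0 φ : ℝ)) ≤ ∏ φ : K →+* ℂ, 2 * s t0 φ :=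
              Finset.prod_le_prod (fun φ _ => by positivity) fun φ _ => hb2 t0 ht0 φ
          _ = _ := by
              rw [Finset.prod_mul_distrib, Finset.prod_const, Finset.card_univ, card_emb]
      have e3 : ∏ φ : K →+* ℂ, s t0 φ ≤ (X : ℝ) ^ (dg K * m) / M ^ m * Ideal.absNorm (I t0) := by
        have h4 := height_int (z t0) (hzne t0 ht0)
        have h5 := (hbad t0 ht0).2
        have e4 : (fun j => MvPolynomial.eval (fun i => y i + t0 * e i) (f j)) =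
            fun j => (z t0 j : K) := by
          funext j
          rw [hz t0 ht0 j]
        rw [e4] at h5
        rw [hs]
        simp only
        rw [h4]
        apply mul_le_mul_of_nonneg_right _ hNI.le
        rw [le_div_iff₀ (by positivity)]
        exact h5
      rw [e1]
      have e5 : (2 : ℝ) ^ dg K * ((X : ℝ) ^ (dg K * m) / M ^ m * Ideal.absNorm (I t0)) =
          2 ^ dg K * ((X : ℝ) ^ dg K / M) ^ m * Ideal.absNorm (I t0) := by
        rw [div_pow, ← pow_mul]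
        ring
      have h6 : (∏ φ : K →+* ℂ, ((2 : ℝ) ^ (b t0 φ : ℝ))) ^ (1 / (m : ℝ)) ≤
          ((2 : ℝ) ^ dg K * ((X : ℝ) ^ dg K / M) ^ m * Ideal.absNorm (I t0)) ^ (1 / (m : ℝ)) := by
        apply Real.rpow_le_rpow (Finset.prod_nonneg fun φ _ => by positivity) _ (by positivity)
        rw [← e5]
        exact e2.trans (mul_le_mul_of_nonneg_left e3 (by positivity))
      have hXM : 0 < (X : ℝ) ^ dg K / M := by positivity
      have e6 : (((X : ℝ) ^ dg K / M) ^ m) ^ (1 / (m : ℝ)) = (X : ℝ) ^ dg K / M := by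
        rw [← Real.rpow_natCast, ← Real.rpow_mul hXM.le, mul_one_div_cancel hm0.ne', Real.rpow_one]
      have e7 : ((2 : ℝ) ^ dg K) ^ (1 / (m : ℝ)) ≤ 2 ^ dg K := by
        have h7 : (1 : ℝ) ≤ 2 ^ dg K := one_le_pow₀ (by norm_num)
        have h8 : 1 / (m : ℝ) ≤ 1 := by
          rw [div_le_one hm0]
          exact_mod_cast hm
        calc ((2 : ℝ) ^ dg K) ^ (1 / (m : ℝ)) ≤ ((2 : ℝ) ^ dg K) ^ (1 : ℝ) :=
              Real.rpow_le_rpow_of_exponent_le h7 h8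
          _ = _ := Real.rpow_one _
      calc (∏ φ : K →+* ℂ, ((2 : ℝ) ^ (b t0 φ : ℝ))) ^ (1 / (m : ℝ)) *
            (Ideal.absNorm (I t0) : ℝ) ^ (-(1 / (m : ℝ)))
          ≤ ((2 : ℝ) ^ dg K * ((X : ℝ) ^ dg K / M) ^ m * Ideal.absNorm (I t0)) ^ (1 / (m : ℝ)) *
            (Ideal.absNorm (I t0) : ℝ) ^ (-(1 / (m : ℝ))) := by gcongr
        _ = ((2 : ℝ) ^ dg K) ^ (1 / (m : ℝ)) * ((X : ℝ) ^ dg K / M) := by
            rw [Real.mul_rpow (by positivity) hNI.le, Real.mul_rpow (by positivity) (by positivity),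
              e6, Real.rpow_neg hNI.le]
            have : 0 < (Ideal.absNorm (I t0) : ℝ) ^ (1 / (m : ℝ)) := by positivity
            field_simp
        _ ≤ _ := by gcongr
    have h2d : (1 : ℝ) ≤ 2 ^ dg K := one_le_pow₀ (by norm_num)
    calc Cl * (Ideal.absNorm (I t0) : ℝ) ^ η * ((∏ φ : K →+* ℂ, ((2 : ℝ) ^ (b t0 φ : ℝ)) ^ (1 / (m : ℝ))) *
        (Ideal.absNorm (I t0) : ℝ) ^ (-(1 / (m : ℝ))) + 1)
        ≤ Cl * (G * (X : ℝ) ^ (ε / 3)) * (2 ^ dg K * ((X : ℝ) ^ dg K / M) + 1) := by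
          have : 0 ≤ (∏ φ : K →+* ℂ, ((2 : ℝ) ^ (b t0 φ : ℝ)) ^ (1 / (m : ℝ))) *
            (Ideal.absNorm (I t0) : ℝ) ^ (-(1 / (m : ℝ))) + 1 := by positivity
          gcongr
      _ ≤ Bd := by
          rw [hBd]
          have : 2 ^ dg K * ((X : ℝ) ^ dg K / M) + 1 ≤ 2 ^ dg K * ((X : ℝ) ^ dg K / M + 1) := by
            rw [mul_add, mul_one]
            linarith
          gcongr)
  have h1 : (Z.card : ℝ) ≤ Bd * ((Z.image key).card : ℝ) := by
    have h2 : (Z.card : ℝ) ≤ (⌊Bd⌋₊ : ℝ) * ((Z.image key).card : ℝ) := by exact_mod_cast hfib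
    refine h2.trans ?_
    exact mul_le_mul_of_nonneg_right (Nat.floor_le hBd0) (Nat.cast_nonneg _)
  have hXe : (X : ℝ) ^ (ε / 3) * ((X : ℝ) ^ (ε / 3) * (X : ℝ) ^ (ε / 3)) = (X : ℝ) ^ ε := by
    rw [← Real.rpow_add hX0, ← Real.rpow_add hX0]
    congr 1
    ring
  calc (Z.card : ℝ) ≤ Bd * ((Z.image key).card : ℝ) := h1
    _ ≤ Bd * ((Cd * G * (X : ℝ) ^ (ε / 3)) * (C3 * (X : ℝ) ^ (ε / 3))) := by gcongr
    _ = (Cd * G) * C3 * (Cl * G * 2 ^ dg K) *
        ((X : ℝ) ^ (ε / 3) * ((X : ℝ) ^ (ε / 3) * (X : ℝ) ^ (ε / 3))) * ((X : ℝ) ^ dg K / M + 1) := by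
        rw [hBd]
        ring
    _ = _ := by rw [hXe]

end Pool.Agent.H437.WM
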